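import Pool.Agent.Helper58.FL.Can

/-!
# Auxiliary notions for the proofs (homotopies, trivial fibrations, injective fibrations, …)
-/

open CategoryTheory MonoidalCategory Simplicial Opposite

set_option autoImplicit false

namespace FL

universe u

/-- Two maps of simplicial sets are homotopic. -/
def Htpy {X Y : SSet.{u}} (f g : X ⟶ Y) : Prop := Nonempty (SSet.Homotopy f g)

/-- Trivial fibrations of simplicial sets. -/
def TrivFib {E B : SSet.{0}} (p : E ⟶ B) : Prop :=
  ∀ n : ℕ, HasLiftingProperty (∂Δ[n].ι : (∂Δ[n] : SSet.{0}) ⟶ Δ[n]) p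

/-- Kan fibrations of simplicial sets. -/
abbrev KanFib {E B : SSet.{0}} (p : E ⟶ B) : Prop :=
  ∀ (n : ℕ) (i : Fin (n + 2)), HasLiftingProperty (Λ[n + 1, i].ι : (Λ[n + 1, i] : SSet.{0}) ⟶ _) p

section

variable {A : Type} [SmallCategory A]

/-- Deformation retractions of simplicial presheaves: maps `r` with a section `s` and
a simplicial homotopy from `r ≫ s` (at the vertex `0 = δ 1`) to the identity (at the vertex
`1 = δ 0`). -/
def SDR {X Y : SP A} (r : X ⟶ Y) : Prop :=
  ∃ s : Y ⟶ X, s ≫ r = 𝟙 Y ∧ ∃ h : MpS X X ⦋1⦌,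
    h.res (SimplexCategory.δ 1) = MpS.ofHom ⦋0⦌ (r ≫ s) ∧
    h.res (SimplexCategory.δ 0) = MpS.ofHom ⦋0⦌ (𝟙 X)

/-- Injective fibrations. -/
def InjFibration {Z Z' : SP A} (q : Z ⟶ Z') : Prop :=
  ∀ ⦃X Y : SP A⦄ (i : X ⟶ Y), TrivCof i → HasLiftingProperty i q

/-- Injective trivial fibrations: the right lifting property with respect to all objectwise
monomorphisms. -/
def InjTrivFibration {Z Z' : SP A} (q : Z ⟶ Z') : Prop :=
  ∀ ⦃X Y : SP A⦄ (i : X ⟶ Y), (∀ a, Mono (i.app a)) → HasLiftingProperty i q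

end

/-- Injectively fibrant presheaves on `Cat_n`. -/
def PSh.InjFib {n : ℕ} (G : PSh n) : Prop :=
  ∀ ⦃F F' : PSh n⦄ (i : PSh.Hom F F'), (∀ C, Mono (i.app C)) → (∀ C, WE (i.app C)) →
    ∀ f : PSh.Hom F G, ∃ g : PSh.Hom F' G, ∀ C, i.app C ≫ g.app C = f.app C

/-- The map of `i`-th levels induced by a map of simplicial presheaves on `Θ_n × [n]^op`. -/
noncomputable def levelHom {n : ℕ} {X Y : SP (Gn n)} (f : X ⟶ Y) (i : Fin (n + 1)) :
    level X i ⟶ level Y i :=
  Functor.whiskerLeft (Prod.sectL (Th n) (op i)).op f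

/-- The diagram `j ↦ Map(p(j), Z)` attached to a diagram `p` of simplicial presheaves. -/
noncomputable def mpDiag {A J : Type} [SmallCategory A] [SmallCategory J] (p : J ⥤ SP A) (Z : SP A) :
    SP J where
  obj j := Mp (p.obj j.unop) Z
  map f := Mp.pre (p.map f.unop) Z
  map_id j := by
    ext k φ
    refine MpS.ext ?_
    funext a l s x
    exact congrArg (MpS.app φ a l s) (diag_id p _)
  map_comp f g := by
    ext k φ
    refine MpS.ext ?_
    funext a l s x
    exact congrArg (MpS.app φ a l s) (diag_comp p _ _ _)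

end FL
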