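import Pool.Agent.Helper58.FL.RepCat
import Pool.Agent.Helper91.FL.GauntFinal
import Pool.Agent.Helper43.FL.YFFmain
import Pool.Agent.Helper82.FL.Yinj
import Pool.Agent.Helper72.FL.RKE
import Pool.Agent.Helper94.FL.Holim

/-! Stage 1 of project FL: the reduction of the conjecture to the theorem on `Θ_n`. -/

open CategoryTheory MonoidalCategory Opposite

set_option autoImplicit false

namespace Pool.Agent.Helper58.FLS

open _root_.FL

variable {n : ℕ}

theorem hrep (θ : Th n) : IsCat n (rep θ) := Pool.Agent.Helper58.FLR.rep_isCat θ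

theorem YDmap_iff (D D' : SP (Gn n)) : HoEq (YDmap D D') ↔ HoEq (NDmap D D') :=
  Helper43.FL.YDmap_iff hrep D D'

theorem YD_kan {D : SP (Gn n)} (hD : InjFib D) : (YD D).Kan :=
  Pool.Agent.Helper91.FL17a.YD_kan hD

theorem YD_injFib {D : SP (Gn n)} (hD : InjFib D) : (YD D).InjFib :=
  Pool.Agent.Helper82.FL15.YD_injFib hrep D hD

theorem YD_gauntDescent {D : SP (Gn n)} (hD : InjFib D) (hc : ∀ i, IsCat n (level D i)) :
    (YD D).GauntDescent :=
  Pool.Agent.Helper91.FL17a.YD_gauntDescent hD hc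

theorem gauntDescent_of_equiv {F G : PSh n} (hF : F.Kan) (hG : G.Kan) (h : PSh.Equiv F G)
    (hG' : G.GauntDescent) : F.GauntDescent :=
  Pool.Agent.Helper72.RKE.gauntDescent_of_equiv_of
    (fun hX hY hZ _ _ h1 h2 => Pool.Agent.Helper88.FL.hoEq_comp hX hY hZ h1 h2)
    (fun hX hY hZ _ _ h1 h2 => Pool.Agent.Helper88.FL.hoEq_of_comp_right hX hY hZ h1 h2)
    (fun h => Helper94.FL.Holim_kan h)
    (fun h1 h2 q hq => Helper94.FL.Holim_hoEq h1 h2 q hq) hF hG h hG'

theorem equiv_YD_iff {F : PSh n} (hF : F.Kan) (hF' : F.GauntDescent) {D : SP (Gn n)}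
    (hD : InjFib D) (hc : ∀ i, IsCat n (level D i)) :
    PSh.Equiv F (YD D) ↔ ∃ f : F.restr hrep ⟶ ND D, ObjHoEq f :=
  Pool.Agent.Helper72.RKE.equiv_YD_iff_of hrep
    (fun hX hY hZ _ _ h1 h2 => Pool.Agent.Helper88.FL.hoEq_comp hX hY hZ h1 h2)
    (fun hX hY hZ _ _ h1 h2 => Pool.Agent.Helper88.FL.hoEq_of_comp_right hX hY hZ h1 h2)
    (fun h => Helper94.FL.Holim_kan h)
    (fun h1 h2 q hq => Helper94.FL.Holim_hoEq h1 h2 q hq)
    (fun F D => by
      obtain ⟨e, he, _⟩ := Pool.Agent.Helper82.FL15.exists_YDequiv hrep F D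
      exact ⟨e, he⟩)
    (fun C hC => Pool.Agent.Helper91.FL17a.canCone_isGaunt hrep C hC)
    YD_kan YD_gauntDescent hF hF' hD hc

theorem segalDescent_restr {F : PSh n} (hF : F.GauntDescent) (hG : KnownGaunt n) :
    SegalDescent (F.restr hrep) :=
  Pool.Agent.Helper72.RKE.segalDescent_restr hrep hF hG

theorem conjecture_of (h : KnownTheorem n) (h' : KnownGaunt n) : Conjecture n := by
  refine ⟨fun D D' hD hD' => (YDmap_iff D D').2 (h.1 D D' hD hD'), fun F hF => ⟨fun hF' => ?_, ?_⟩⟩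
  · obtain ⟨D, hD, hf⟩ := (h.2 (F.restr hrep) fun a => hF _).1 (segalDescent_restr hF' h')
    exact ⟨D, hD, (equiv_YD_iff hF hF' hD.inj hD.cat).2 hf⟩
  · rintro ⟨D, hD, hE⟩
    exact gauntDescent_of_equiv hF (YD_kan hD.inj) hE (YD_gauntDescent hD.inj hD.cat)

end Pool.Agent.Helper58.FLS
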