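import Mathlib

/-!
# Simplicial presheaves: mapping spaces, equivalences, injectively fibrant objects

Elementary homotopical definitions used for the formalisation of flagged higher categories.
`SP A` is the category of simplicial presheaves on the small category `A`, `Mp X Y` is the
simplicial set of maps `X × Δ[m] ⟶ Y`, `HoEq f` says that the map `f` of simplicial sets is a
simplicial homotopy equivalence (the right notion of equivalence between Kan complexes),
`WE f` that `f` is a weak homotopy equivalence, `InjFib Z` that the simplicial presheaf `Z` is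
injectively fibrant.
-/

open CategoryTheory MonoidalCategory Simplicial Opposite

set_option autoImplicit false

namespace FL

universe u

/-- Simplicial presheaves on a small category. -/
abbrev SP (A : Type) [SmallCategory A] : Type 1 := Aᵒᵖ ⥤ SSet.{0}

section Elements

/-! Elementwise forms of functoriality and naturality. -/

variable {A : Type} [SmallCategory A]

lemma sset_id (K : SSet.{u}) {k : SimplexCategoryᵒᵖ} (x : K.obj k) : K.map (𝟙 k) x = x := by
  rw [CategoryTheory.Functor.map_id]; rfl

lemma sset_comp (K : SSet.{u}) {k l m : SimplexCategoryᵒᵖ} (α : k ⟶ l) (β : l ⟶ m)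
    (x : K.obj k) : K.map (α ≫ β) x = K.map β (K.map α x) := by
  rw [CategoryTheory.Functor.map_comp]; rfl

lemma sset_nat {K L : SSet.{u}} (f : K ⟶ L) {k l : SimplexCategoryᵒᵖ} (α : k ⟶ l)
    (x : K.obj k) : f.app l (K.map α x) = L.map α (f.app k x) :=
  ConcreteCategory.congr_hom (f.naturality α) x

lemma sp_id (X : SP A) {a : Aᵒᵖ} {k : SimplexCategoryᵒᵖ} (x : (X.obj a).obj k) :
    (X.map (𝟙 a)).app k x = x := by
  rw [CategoryTheory.Functor.map_id]; rfl

lemma sp_comp (X : SP A) {a b c : Aᵒᵖ} (f : a ⟶ b) (g : b ⟶ c) {k : SimplexCategoryᵒᵖ}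
    (x : (X.obj a).obj k) : (X.map (f ≫ g)).app k x = (X.map g).app k ((X.map f).app k x) := by
  rw [CategoryTheory.Functor.map_comp]; rfl

lemma sp_nat (X : SP A) {a b : Aᵒᵖ} (f : a ⟶ b) {k l : SimplexCategoryᵒᵖ} (α : k ⟶ l)
    (x : (X.obj a).obj k) :
    (X.map f).app l ((X.obj a).map α x) = (X.obj b).map α ((X.map f).app k x) :=
  sset_nat (X.map f) α x

lemma hom_nat {X Y : SP A} (u : X ⟶ Y) {a b : Aᵒᵖ} (f : a ⟶ b) {k : SimplexCategoryᵒᵖ}
    (x : (X.obj a).obj k) :
    (u.app b).app k ((X.map f).app k x) = (Y.map f).app k ((u.app a).app k x) :=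
  ConcreteCategory.congr_hom (NatTrans.congr_app (u.naturality f) k) x

lemma hom_natk {X Y : SP A} (u : X ⟶ Y) {a : Aᵒᵖ} {k l : SimplexCategoryᵒᵖ} (α : k ⟶ l)
    (x : (X.obj a).obj k) :
    (u.app a).app l ((X.obj a).map α x) = (Y.obj a).map α ((u.app a).app k x) :=
  sset_nat (u.app a) α x

end Elements

section Maps

variable {A : Type} [SmallCategory A]

/-- An `m`-simplex of the mapping space of `X` and `Y`: a map `X × Δ[m] ⟶ Y`, written out as a
family of functions `X(a)_k × Δ[m]_k → Y(a)_k`, natural in `a` and in `k`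
(a `k`-simplex of `Δ[m]` is a monotone map `s : [k] → [m]`). -/
@[ext]
structure MpS (X Y : SP A) (m : SimplexCategory) : Type where
  app (a : Aᵒᵖ) (k : SimplexCategoryᵒᵖ) (s : k.unop ⟶ m) (x : (X.obj a).obj k) : (Y.obj a).obj k
  nat_left : ∀ {a b : Aᵒᵖ} (f : a ⟶ b) (k : SimplexCategoryᵒᵖ) (s : k.unop ⟶ m)
    (x : (X.obj a).obj k), app b k s ((X.map f).app k x) = (Y.map f).app k (app a k s x)
  nat_right : ∀ (a : Aᵒᵖ) {k l : SimplexCategoryᵒᵖ} (g : k ⟶ l) (s : k.unop ⟶ m)
    (x : (X.obj a).obj k), app a l (g.unop ≫ s) ((X.obj a).map g x) =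
      (Y.obj a).map g (app a k s x)

namespace MpS

variable {X Y Z : SP A} {m n : SimplexCategory}

/-- The simplicial structure: restriction along `α : [n] → [m]`. -/
@[simps]
def res (α : n ⟶ m) (φ : MpS X Y m) : MpS X Y n where
  app a k s x := φ.app a k (s ≫ α) x
  nat_left f k s x := φ.nat_left f k _ x
  nat_right a k l g s x := by
    rw [Category.assoc]
    exact φ.nat_right a g (s ≫ α) x

/-- Composition of maps. -/
@[simps]
def comp (φ : MpS X Y m) (ψ : MpS Y Z m) : MpS X Z m where
  app a k s x := ψ.app a k s (φ.app a k s x)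
  nat_left f k s x := by rw [φ.nat_left, ψ.nat_left]
  nat_right a k l g s x := by rw [φ.nat_right, ψ.nat_right]

/-- The simplex of the mapping space given by a strict map. -/
@[simps]
def ofHom (m : SimplexCategory) (f : X ⟶ Y) : MpS X Y m where
  app a k _ x := (f.app a).app k x
  nat_left g _ _ x := hom_nat f g x
  nat_right _ _ _ g _ x := hom_natk f g x

end MpS

/-- The mapping space: the simplicial set of maps `X × Δ[m] ⟶ Y`. -/
def Mp (X Y : SP A) : SSet.{0} where
  obj m := MpS X Y m.unop
  map α := ↾ fun φ => φ.res α.unop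
  map_id m := by ext φ; simp
  map_comp α β := by ext φ; simp

/-- Precomposition with a strict map, as a map of mapping spaces. -/
def Mp.pre {X X' : SP A} (f : X ⟶ X') (Y : SP A) : Mp X' Y ⟶ Mp X Y where
  app m := ↾ fun φ => (MpS.ofHom m.unop f).comp φ
  naturality m n α := by ext φ; rfl

/-- Postcomposition with a strict map, as a map of mapping spaces. -/
def Mp.post (X : SP A) {Y Y' : SP A} (f : Y ⟶ Y') : Mp X Y ⟶ Mp X Y' where
  app m := ↾ fun φ => φ.comp (MpS.ofHom m.unop f)
  naturality m n α := by ext φ; rfl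

end Maps

/-- A simplicial homotopy equivalence of simplicial sets. Between Kan complexes this is the
correct notion of equivalence. -/
def HoEq {X Y : SSet.{u}} (f : X ⟶ Y) : Prop :=
  ∃ g : Y ⟶ X, Nonempty (SSet.Homotopy (f ≫ g) (𝟙 X)) ∧ Nonempty (SSet.Homotopy (g ≫ f) (𝟙 Y))

/-- A weak homotopy equivalence of simplicial sets: for every Kan complex `K`, precomposition
`K ^ Y ⟶ K ^ X` is a homotopy equivalence. -/
def WE {X Y : SSet.{0}} (f : X ⟶ Y) : Prop :=
  ∀ K : SSet.{0}, SSet.KanComplex K → HoEq ((MonoidalClosed.pre f).app K)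

section

variable {A : Type} [SmallCategory A]

/-- Trivial cofibrations of the injective model structure: objectwise monomorphisms which are
objectwise weak homotopy equivalences. -/
def TrivCof {X Y : SP A} (i : X ⟶ Y) : Prop :=
  (∀ a, Mono (i.app a)) ∧ ∀ a, WE (i.app a)

/-- Injectively fibrant simplicial presheaves. -/
def InjFib (Z : SP A) : Prop :=
  ∀ ⦃X Y : SP A⦄ (i : X ⟶ Y), TrivCof i → ∀ f : X ⟶ Z, ∃ g : Y ⟶ Z, i ≫ g = f

/-- Objectwise Kan simplicial presheaves. -/
def ObjKan (Z : SP A) : Prop := ∀ a, SSet.KanComplex (Z.obj a)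

/-- Objectwise homotopy equivalences. -/
def ObjHoEq {X Y : SP A} (f : X ⟶ Y) : Prop := ∀ a, HoEq (f.app a)

end

end FL
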