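import Pool.Agent.Helper58.FL.Statement

/-!
# The canonical diagram of a simplicial presheaf, tensors, the last vertex map
-/

open CategoryTheory MonoidalCategory Opposite

set_option autoImplicit false

namespace FL

section Tensor

variable {A : Type} [SmallCategory A]

/-- The tensor of a simplicial presheaf with a simplicial set. -/
def tn (X : SP A) (K : SSet.{0}) : SP A := X ⋙ tensorRight K

/-- Functoriality of the tensor. -/
def tnMap {X Y : SP A} {K L : SSet.{0}} (f : X ⟶ Y) (g : K ⟶ L) : tn X K ⟶ tn Y L where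
  app a := f.app a ⊗ₘ g
  naturality a b h := by
    ext k ⟨x, y⟩
    exact Prod.ext (hom_nat f h x) rfl

@[simp] lemma tn_obj_obj (X : SP A) (K : SSet.{0}) (a : Aᵒᵖ) (k : SimplexCategoryᵒᵖ) :
    ((tn X K).obj a).obj k = ((X.obj a).obj k × K.obj k) := rfl

lemma tnMap_app_app {X Y : SP A} {K L : SSet.{0}} (f : X ⟶ Y) (g : K ⟶ L) (a : Aᵒᵖ)
    (k : SimplexCategoryᵒᵖ) (x : (X.obj a).obj k) (y : K.obj k) :
    ((tnMap f g).app a).app k (x, y) = ((f.app a).app k x, g.app k y) := rfl

lemma tn_map_app {X : SP A} {K : SSet.{0}} {a b : Aᵒᵖ} (f : a ⟶ b)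
    (k : SimplexCategoryᵒᵖ) (x : (X.obj a).obj k) (y : K.obj k) :
    ((tn X K).map f).app k (x, y) = ((X.map f).app k x, y) := rfl

lemma tn_obj_map {X : SP A} {K : SSet.{0}} {a : Aᵒᵖ}
    {k l : SimplexCategoryᵒᵖ} (α : k ⟶ l) (x : (X.obj a).obj k) (y : K.obj k) :
    ((tn X K).obj a).map α (x, y) = ((X.obj a).map α x, K.map α y) := rfl

lemma tnMap_id (X : SP A) (K : SSet.{0}) : tnMap (𝟙 X) (𝟙 K) = 𝟙 _ := rfl

lemma tnMap_comp {X Y Z : SP A} {K L M : SSet.{0}} (f : X ⟶ Y) (g : K ⟶ L) (f' : Y ⟶ Z)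
    (g' : L ⟶ M) : tnMap f g ≫ tnMap f' g' = tnMap (f ≫ f') (g ≫ g') := rfl

/-- The universal property of the mapping space: maps `K ⟶ Map(X, Y)` are maps
`X ⊗ K ⟶ Y`. -/
def Mp.adj {X Y : SP A} {K : SSet.{0}} : (K ⟶ Mp X Y) ≃ (tn X K ⟶ Y) where
  toFun f :=
    { app := fun a =>
        { app := fun k => ↾ fun (z : (X.obj a).obj k × K.obj k) =>
            (f.app k z.2 : MpS X Y k.unop).app a k (𝟙 _) z.1
          naturality := fun k l α => by
            ext ⟨x, y⟩
            show (f.app l (K.map α y) : MpS X Y l.unop).app a l (𝟙 _) ((X.obj a).map α x) = _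
            rw [sset_nat f α y]
            show (f.app k y : MpS X Y k.unop).app a l (𝟙 _ ≫ α.unop) ((X.obj a).map α x) = _
            refine Eq.trans ?_ ((f.app k y : MpS X Y k.unop).nat_right a α (𝟙 _) x)
            rw [Category.comp_id, Category.id_comp] }
      naturality := fun a b g => by
        ext k ⟨x, y⟩
        exact (f.app k y : MpS X Y k.unop).nat_left g k (𝟙 _) x }
  invFun f :=
    { app := fun k => ↾ fun y =>
        { app := fun a l s x => (f.app a).app l (x, K.map s.op y)
          nat_left := fun g l s x => hom_nat f g (x, K.map s.op y)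
          nat_right := fun a {l m} g s x => by
            refine Eq.trans ?_ (hom_natk f g (x, K.map s.op y))
            refine congrArg ((f.app a).app m) (Prod.ext rfl ?_)
            exact sset_comp K s.op g y }
      naturality := fun k l α => by
        ext y
        refine MpS.ext ?_
        funext a m s x
        refine congrArg ((f.app a).app m) (Prod.ext rfl ?_)
        exact (sset_comp K α s.op y).symm }
  left_inv f := by
    ext k y
    refine MpS.ext ?_
    funext a l s x
    show (f.app l (K.map s.op y) : MpS X Y l.unop).app a l (𝟙 _) x = _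
    rw [sset_nat f s.op y]
    show (f.app k y : MpS X Y k.unop).app a l (𝟙 _ ≫ s) x = _
    rw [Category.id_comp]
    rfl
  right_inv f := by
    ext a k ⟨x, y⟩
    refine congrArg ((f.app a).app k) (Prod.ext rfl ?_)
    exact sset_id K y

lemma Mp.adj_apply {X Y : SP A} {K : SSet.{0}} (f : K ⟶ Mp X Y) (a : Aᵒᵖ)
    (k : SimplexCategoryᵒᵖ) (x : (X.obj a).obj k) (y : K.obj k) :
    ((Mp.adj f).app a).app k (x, y) = (f.app k y : MpS X Y k.unop).app a k (𝟙 _) x := rfl

lemma Mp.adj_symm_apply {X Y : SP A} {K : SSet.{0}} (f : tn X K ⟶ Y) (k : SimplexCategoryᵒᵖ)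
    (y : K.obj k) (a : Aᵒᵖ) (l : SimplexCategoryᵒᵖ) (s : l.unop ⟶ k.unop)
    (x : (X.obj a).obj l) :
    ((Mp.adj.symm f).app k y : MpS X Y k.unop).app a l s x = (f.app a).app l (x, K.map s.op y) :=
  rfl

lemma Mp.adj_pre {X X' Y : SP A} {K : SSet.{0}} (g : X ⟶ X') (f : K ⟶ Mp X' Y) :
    Mp.adj (f ≫ Mp.pre g Y) = tnMap g (𝟙 K) ≫ Mp.adj f := rfl

lemma Mp.adj_post {X Y Y' : SP A} {K : SSet.{0}} (g : Y ⟶ Y') (f : K ⟶ Mp X Y) :
    Mp.adj (f ≫ Mp.post X g) = Mp.adj f ≫ g := rfl

lemma Mp.adj_comp {X Y : SP A} {K L : SSet.{0}} (j : K ⟶ L) (f : L ⟶ Mp X Y) :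
    Mp.adj (j ≫ f) = tnMap (𝟙 X) j ≫ Mp.adj f := rfl

end Tensor

section LastVertex

/-- The image of a chain under a functor. -/
@[simps obj map]
def Chain.push {I J : Type} [SmallCategory I] [SmallCategory J] (F : I ⥤ J)
    {k : SimplexCategory} (σ : Chain I k) : Chain J k where
  obj i := F.obj (σ.obj i)
  map i j h := F.map (σ.map i j h)
  map_id i := by rw [σ.map_id, F.map_id]
  map_comp i j l h h' := by rw [← F.map_comp, σ.map_comp]

/-- The last vertex map of a chain `[m_0] ⟶ … ⟶ [m_k]`: the map `[k] ⟶ [m_k]` sending `i` to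
the image of the last vertex of `[m_i]`. -/
def lastV {k : SimplexCategory} (σ : Chain SimplexCategory k) : k ⟶ σ.obj (Fin.last _) :=
  SimplexCategory.Hom.mk
    ⟨fun i => (σ.map i (Fin.last _) (Fin.le_last i)).toOrderHom (Fin.last _), fun i j h => by
      show (σ.map i _ _).toOrderHom _ ≤ (σ.map j _ _).toOrderHom _
      rw [← σ.map_comp i j (Fin.last _) h (Fin.le_last j)]
      exact (σ.map j (Fin.last _) (Fin.le_last j)).toOrderHom.monotone (Fin.le_last _)⟩

lemma lastV_res {k l : SimplexCategory} (σ : Chain SimplexCategory k) (α : l ⟶ k) :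
    α ≫ lastV σ = lastV (σ.res α) ≫
      σ.map (α.toOrderHom (Fin.last _)) (Fin.last _) (Fin.le_last _) := by
  ext i : 3
  show (σ.map (α.toOrderHom i) (Fin.last _) _).toOrderHom (Fin.last _) =
    (σ.map (α.toOrderHom (Fin.last _)) (Fin.last _) _).toOrderHom
      ((σ.map (α.toOrderHom i) (α.toOrderHom (Fin.last _)) _).toOrderHom (Fin.last _))
  rw [← σ.map_comp (α.toOrderHom i) (α.toOrderHom (Fin.last _)) (Fin.last _)
    (α.toOrderHom.monotone (Fin.le_last i)) (Fin.le_last _)]
  rfl

/-- The category of simplices of a simplicial set. -/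
structure Simp (K : SSet.{0}) : Type where
  m : SimplexCategory
  x : K.obj (op m)

instance (K : SSet.{0}) : SmallCategory (Simp K) where
  Hom e e' := { g : e.m ⟶ e'.m // K.map g.op e'.x = e.x }
  id _ := ⟨𝟙 _, sset_id K _⟩
  comp g h := ⟨g.1 ≫ h.1, (sset_comp K h.1.op g.1.op _).trans
    ((congrArg (K.map g.1.op) h.2).trans g.2)⟩
  id_comp _ := Subtype.ext (Category.id_comp _)
  comp_id _ := Subtype.ext (Category.comp_id _)
  assoc _ _ _ := Subtype.ext (Category.assoc _ _ _)

/-- The forgetful functor from the category of simplices to `Δ`. -/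
@[simps]
def Simp.toΔ (K : SSet.{0}) : Simp K ⥤ SimplexCategory where
  obj e := Simp.m e
  map g := g.1

/-- The last vertex map `N(Δ/K) ⟶ K`. -/
def lastMap (K : SSet.{0}) : Nv (Simp K) ⟶ K where
  app k := ↾ fun (σ : Chain (Simp K) k.unop) =>
    K.map (lastV (σ.push (Simp.toΔ K))).op (σ.obj (Fin.last _)).x
  naturality k l α := by
    ext (σ : Chain (Simp K) k.unop)
    show K.map (lastV ((σ.res α.unop).push (Simp.toΔ K))).op
        (σ.obj (α.unop.toOrderHom (Fin.last _))).x =
      K.map α (K.map (lastV (σ.push (Simp.toΔ K))).op (σ.obj (Fin.last _)).x)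
    rw [← (σ.map (α.unop.toOrderHom (Fin.last _)) (Fin.last _) (Fin.le_last _)).2]
    refine (sset_comp K _ _ _).symm.trans (Eq.trans ?_ (sset_comp K _ _ _))
    refine congrArg (fun t => K.map t (σ.obj (Fin.last _)).x) ?_
    exact congrArg Quiver.Hom.op (lastV_res (σ.push (Simp.toΔ K)) α.unop).symm

end LastVertex

section Canonical

variable {A : Type} [SmallCategory A]

/-- The objects of the category of elements of a simplicial presheaf `C`: triples `(a, m, x)`
with `x ∈ C(a)_m`. -/
structure El (C : SP A) : Type where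
  a : A
  m : SimplexCategory
  x : (C.obj (op a)).obj (op m)

/-- Morphisms of the category of elements. -/
@[ext]
structure El.Hom {C : SP A} (e e' : El C) : Type where
  f : e.a ⟶ e'.a
  g : e.m ⟶ e'.m
  h : (C.map f.op).app _ ((C.obj (op e'.a)).map g.op e'.x) = e.x

instance (C : SP A) : SmallCategory (El C) where
  Hom := El.Hom
  id _ := ⟨𝟙 _, 𝟙 _, (sp_id C _).trans (sset_id _ _)⟩
  comp {e e' e''} u v := ⟨u.f ≫ v.f, u.g ≫ v.g, by
    refine (sp_comp C v.f.op u.f.op _).trans (Eq.trans ?_ u.h)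
    refine congrArg ((C.map u.f.op).app _) ?_
    refine (congrArg ((C.map v.f.op).app _) (sset_comp _ v.g.op u.g.op _)).trans ?_
    refine (sp_nat C v.f.op u.g.op _).trans ?_
    exact congrArg ((C.obj _).map u.g.op) v.h⟩
  id_comp _ := El.Hom.ext (Category.id_comp _) (Category.id_comp _)
  comp_id _ := El.Hom.ext (Category.comp_id _) (Category.comp_id _)
  assoc _ _ _ := El.Hom.ext (Category.assoc _ _ _) (Category.assoc _ _ _)

/-- The projection of the category of elements of `C` to `A`. -/
@[simps]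
def El.toA (C : SP A) : El C ⥤ A where
  obj e := El.a e
  map u := El.Hom.f u

/-- The projection of the category of elements of `C` to `Δ`. -/
@[simps]
def El.toΔ (C : SP A) : El C ⥤ SimplexCategory where
  obj e := El.m e
  map u := El.Hom.g u

/-- The canonical diagram of a simplicial presheaf `C`: the diagram of representable presheaves
`h_a` indexed by the category of elements of `C`. -/
abbrev canDiag (C : SP A) : El C ⥤ SP A := El.toA C ⋙ yo A

lemma can_aux (C : SP A) {a a' b : A} {m m' k l : SimplexCategory}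
    (x : (C.obj (op a)).obj (op m)) (f : a' ⟶ a) (g : m' ⟶ m)
    (x' : (C.obj (op a')).obj (op m'))
    (hx : (C.map f.op).app _ ((C.obj (op a)).map g.op x) = x') (v : k ⟶ m) (v' : l ⟶ m')
    (α : l ⟶ k) (hv : α ≫ v = v' ≫ g) (w : b ⟶ a) (w' : b ⟶ a') (hw : w' ≫ f = w) :
    (C.map w'.op).app (op l) ((C.obj (op a')).map v'.op x') =
      (C.obj (op b)).map α.op ((C.map w.op).app (op k) ((C.obj (op a)).map v.op x)) := by
  subst hx hw
  rw [← sp_nat, ← sp_nat, ← sset_comp, ← sset_comp, ← sp_comp, ← op_comp, ← op_comp, ← op_comp, hv]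

/-- The canonical cocone `hocolim h_a ⟶ C`, given by the last vertex map. -/
def canCone (C : SP A) : Hoco (canDiag C) ⟶ C where
  app b :=
    { app := fun k => ↾ fun (w : HS (canDiag C) b k) =>
        (C.map (Quiver.Hom.op ((w.x : b.unop ⟶ (w.σ.obj 0).a) ≫
          El.Hom.f (w.σ.map 0 (Fin.last _) (Fin.zero_le _))))).app k
          ((C.obj (op (w.σ.obj (Fin.last _)).a)).map (lastV (w.σ.push (El.toΔ C))).op
            (w.σ.obj (Fin.last _)).x)
      naturality := fun k l α => by
        ext (w : HS (canDiag C) b k)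
        obtain ⟨σ, (u : b.unop ⟶ (σ.obj 0).a)⟩ := w
        have hx := El.Hom.h (σ.map (α.unop.toOrderHom (Fin.last _)) (Fin.last _) (Fin.le_last _))
        have hf : El.Hom.f (σ.map 0 (Fin.last _) (Fin.zero_le _)) =
            El.Hom.f (σ.map 0 (α.unop.toOrderHom 0) (Fin.zero_le _)) ≫
            El.Hom.f (σ.map (α.unop.toOrderHom 0) (α.unop.toOrderHom (Fin.last _))
              (α.unop.toOrderHom.monotone (Fin.zero_le _))) ≫
            El.Hom.f (σ.map (α.unop.toOrderHom (Fin.last _)) (Fin.last _) (Fin.le_last _)) := by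
          rw [← σ.map_comp 0 (α.unop.toOrderHom 0) (Fin.last _) (Fin.zero_le _) (Fin.le_last _),
            ← σ.map_comp (α.unop.toOrderHom 0) (α.unop.toOrderHom (Fin.last _)) (Fin.last _)
              (α.unop.toOrderHom.monotone (Fin.zero_le _)) (Fin.le_last _)]
          rfl
        refine can_aux C _ _ _ _ hx (lastV (σ.push (El.toΔ C)))
          (lastV ((σ.push (El.toΔ C)).res α.unop)) α.unop (lastV_res _ _) _ _ ?_
        rw [hf]
        refine (Category.assoc _ _ _).trans ?_
        exact Category.assoc u _ _ }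
  naturality b b' f := by
    ext k (w : HS (canDiag C) b k)
    obtain ⟨σ, (u : b.unop ⟶ (σ.obj 0).a)⟩ := w
    show (C.map (Quiver.Hom.op ((f.unop ≫ u) ≫
        El.Hom.f (σ.map 0 (Fin.last _) (Fin.zero_le _))))).app k _ =
      (C.map f).app k ((C.map (Quiver.Hom.op (u ≫
        El.Hom.f (σ.map 0 (Fin.last _) (Fin.zero_le _))))).app k _)
    rw [← sp_comp, Category.assoc]
    rfl

end Canonical

section Restriction

variable {n : ℕ}

/-- The restriction of a presheaf on `Cat_n` to `Θ_n`. -/
noncomputable abbrev PSh.restr (F : PSh n) (hrep : ∀ θ : Th n, IsCat n (rep θ)) : SP (Th n) :=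
  F.along (yo (Th n)) hrep

/-- The simplex of `Map(h_a, C)` corresponding to a simplex of `C(a)` (Yoneda). -/
def yoS {A : Type} [SmallCategory A] {C : SP A} {a : A} {k : SimplexCategory}
    (x : (C.obj (op a)).obj (op k)) : MpS (rep a) C k where
  app b l s u := (C.map (Quiver.Hom.op (u : b.unop ⟶ a))).app l ((C.obj (op a)).map s.op x)
  nat_left f l s u := sp_comp C (Quiver.Hom.op (u : _ ⟶ a)) f _
  nat_right b l m g s u := by
    refine (congrArg _ (sset_comp _ s.op g x)).trans ?_
    exact sp_nat C (Quiver.Hom.op (u : b.unop ⟶ a)) g _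

end Restriction

end FL
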