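import Pool.Agent.Helper58.FL.Theta

/-!
# `(∞,n)`-categories and flagged `(∞,n)`-categories

`(∞,n)`-categories are modelled, following Rezk, by the injectively fibrant simplicial
presheaves on `Θ_n` which satisfy the Segal and the completeness conditions.
-/

open CategoryTheory MonoidalCategory Opposite

set_option autoImplicit false

namespace FL

section Discrete

variable {A : Type} [SmallCategory A]

/-- A presheaf of sets, viewed as a (discrete) simplicial presheaf. -/
abbrev disc (F : Aᵒᵖ ⥤ Type) : SP A := F ⋙ Functor.const SimplexCategoryᵒᵖ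

/-- Functoriality of `disc`. -/
abbrev discMap {F G : Aᵒᵖ ⥤ Type} (f : F ⟶ G) : disc F ⟶ disc G :=
  Functor.whiskerRight f (Functor.const SimplexCategoryᵒᵖ)

/-- The representable presheaf `h_a`. -/
abbrev rep (a : A) : SP A := disc (yoneda.obj a)

/-- Functoriality of `h_a`. -/
abbrev repMap {a b : A} (f : a ⟶ b) : rep a ⟶ rep b := discMap (yoneda.map f)

/-- The Yoneda embedding `a ↦ h_a` of `A` in simplicial presheaves on `A`. -/
@[simps]
def yo (A : Type) [SmallCategory A] : A ⥤ SP A where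
  obj a := rep a
  map u := repMap u
  map_id _ := by
    ext b k u
    exact Category.comp_id (obj := A) _
  map_comp _ _ := by
    ext b k u
    exact (Category.assoc (obj := A) _ _ _).symm

/-- The terminal presheaf. -/
abbrev one (A : Type) [SmallCategory A] : SP A := disc ((Functor.const Aᵒᵖ).obj PUnit.{1})

/-- The empty presheaf. -/
abbrev empt (A : Type) [SmallCategory A] : SP A := disc ((Functor.const Aᵒᵖ).obj PEmpty.{1})

/-- The map from the empty presheaf to the terminal one. -/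
def emptToOne (A : Type) [SmallCategory A] : empt A ⟶ one A :=
  discMap ((Functor.const Aᵒᵖ).map (↾ PEmpty.elim))

/-- The inclusion of a sieve on `a` in the representable presheaf `h_a`. -/
abbrev sieveIncl {a : A} (S : Sieve a) : disc S.functor ⟶ rep a := discMap S.functorInclusion

end Discrete

section V

variable {C : Type} [SmallCategory C]

/-- A `k`-simplex of `V[m](X_1, …, X_m)` at `θ`: a monotone map `f : [θ.len] → [m]` and, for
every `f(i-1) < j ≤ f(i)`, a `k`-simplex of `X_j(θ_i)`. -/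
structure VS {m : ℕ} (X : Fin m → SP C) (θ : Wr C) (k : SimplexCategoryᵒᵖ) : Type where
  f : Fin (θ.len + 1) →o Fin (m + 1)
  g : ∀ (i : Fin θ.len) (j : Fin m), Jump f i j → ((X j).obj (op (θ.obj i))).obj k

namespace VS

variable {m : ℕ} {X Y Z : Fin m → SP C}

lemma ext' {θ : Wr C} {k : SimplexCategoryᵒᵖ} {u v : VS X θ k} (hf : u.f = v.f)
    (hg : ∀ i j (h : Jump u.f i j) (h' : Jump v.f i j), u.g i j h = v.g i j h') : u = v := by
  obtain ⟨f, g⟩ := u
  obtain ⟨f', g'⟩ := v
  simp only at hf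
  subst hf
  congr 1
  funext i j h
  exact hg i j h h

/-- The simplicial structure of `V[m](X)(θ)`. -/
@[simps f g]
def mapk {θ : Wr C} {k l : SimplexCategoryᵒᵖ} (α : k ⟶ l) (u : VS X θ k) : VS X θ l where
  f := u.f
  g i j h := ((X j).obj (op (θ.obj i))).map α (u.g i j h)

/-- The presheaf structure of `V[m](X)`. -/
@[simps f]
noncomputable def mapθ {θ θ' : Wr C} (φ : θ' ⟶ θ) {k : SimplexCategoryᵒᵖ} (u : VS X θ k) :
    VS X θ' k where
  f := u.f.comp (Wr.Hom.f φ)
  g i j h := ((X j).map (Wr.Hom.g φ i h.split.choose h.split.choose_spec.1).op).app k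
    (u.g h.split.choose j h.split.choose_spec.2)

lemma mapθ_g {θ θ' : Wr C} (φ : θ' ⟶ θ) {k : SimplexCategoryᵒᵖ} (u : VS X θ k)
    {i : Fin θ'.len} {j : Fin θ.len} {l : Fin m} (h : Jump (Wr.Hom.f φ) i j)
    (h' : Jump u.f j l) :
    (mapθ φ u).g i l (h.comp h') = ((X l).map (Wr.Hom.g φ i j h).op).app k (u.g j l h') := by
  have hj := (h.comp h').split.choose_spec
  have e : (h.comp h').split.choose = j := hj.2.unique h'
  show ((X l).map (Wr.Hom.g φ i _ hj.1).op).app k (u.g _ l hj.2) = _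
  have aux : ∀ j' (e : j' = j) (h1 : Jump (Wr.Hom.f φ) i j') (h2 : Jump u.f j' l),
      ((X l).map (Wr.Hom.g φ i j' h1).op).app k (u.g j' l h2) =
        ((X l).map (Wr.Hom.g φ i j h).op).app k (u.g j l h') := by
    rintro j' rfl h1 h2; rfl
  exact aux _ e _ _

/-- Functoriality of `V[m]`. -/
@[simps f g]
def push (p : ∀ j, X j ⟶ Y j) {θ : Wr C} {k : SimplexCategoryᵒᵖ} (u : VS X θ k) : VS Y θ k where
  f := u.f
  g i j h := ((p j).app _).app k (u.g i j h)

end VS

/-- Rezk's presheaf `V[m](X_1, …, X_m)` on `Δ ≀ C`. -/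
noncomputable def V {m : ℕ} (X : Fin m → SP C) : SP (Wr C) where
  obj θ :=
    { obj := fun k => VS X θ.unop k
      map := fun α => ↾ fun u => u.mapk α
      map_id := fun k => by
        ext u
        refine VS.ext' rfl fun i j h h' => ?_
        exact ConcreteCategory.congr_hom (((X j).obj (op (θ.unop.obj i))).map_id k) _
      map_comp := fun α β => by
        ext u
        refine VS.ext' rfl fun i j h h' => ?_
        exact ConcreteCategory.congr_hom (((X j).obj (op (θ.unop.obj i))).map_comp α β) _ }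
  map φ :=
    { app := fun k => ↾ fun u => u.mapθ φ.unop
      naturality := fun k l α => by
        ext u
        refine VS.ext' rfl fun i j h h' => ?_
        obtain ⟨r, hr, hr'⟩ := Jump.split (f := Wr.Hom.f φ.unop) (g := u.f) h
        refine (VS.mapθ_g φ.unop (u.mapk α) hr hr').trans ?_
        show _ = ((X j).obj _).map α ((u.mapθ φ.unop).g i j _)
        rw [VS.mapθ_g φ.unop u hr hr']
        exact ConcreteCategory.congr_hom (((X j).map (Wr.Hom.g φ.unop i r hr).op).naturality α) _ }
  map_id θ := by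
    ext k u
    refine VS.ext' rfl fun i j h h' => ?_
    refine (VS.mapθ_g (𝟙 θ.unop) u (jump_id.mpr rfl) h').trans ?_
    exact ConcreteCategory.congr_hom (NatTrans.congr_app ((X j).map_id (op (θ.unop.obj i))) k) _
  map_comp {θ θ' θ''} φ ψ := by
    ext k u
    refine VS.ext' rfl fun i l h h' => ?_
    obtain ⟨r, hr, hr'⟩ := Jump.split (f := Wr.Hom.f (ψ.unop ≫ φ.unop)) (g := u.f) h
    obtain ⟨s, hs, hs'⟩ := Jump.split (f := Wr.Hom.f ψ.unop) (g := Wr.Hom.f φ.unop) hr
    refine (VS.mapθ_g (ψ.unop ≫ φ.unop) u hr hr').trans ?_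
    show _ = ((u.mapθ φ.unop).mapθ ψ.unop).g i l _
    refine Eq.trans ?_ (VS.mapθ_g ψ.unop (u.mapθ φ.unop) hs (hs'.comp hr')).symm
    rw [VS.mapθ_g φ.unop u hs' hr']
    have e := Wr.comp_g ψ.unop φ.unop hs hs'
    have e' : Wr.Hom.g (ψ.unop ≫ φ.unop) i r hr = Wr.Hom.g (ψ.unop ≫ φ.unop) i r (hs.comp hs') :=
      rfl
    rw [e', e, op_comp, (X l).map_comp]
    rfl

/-- Functoriality of `V[m]`. -/
noncomputable def V.map {m : ℕ} {X Y : Fin m → SP C} (p : ∀ j, X j ⟶ Y j) : V X ⟶ V Y where
  app θ :=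
    { app := fun k => ↾ fun u => u.push p
      naturality := fun k l α => by
        ext u
        refine VS.ext' rfl fun i j h h' => ?_
        exact ConcreteCategory.congr_hom (((p j).app (op (θ.unop.obj i))).naturality α) _ }
  naturality θ θ' φ := by
    ext k u
    refine VS.ext' rfl fun i j h h' => ?_
    obtain ⟨r, hr, hr'⟩ := Jump.split (f := Wr.Hom.f φ.unop) (g := u.f) h
    refine Eq.trans ?_ (VS.mapθ_g φ.unop (u.push p) hr hr').symm
    show ((p j).app _).app k ((u.mapθ φ.unop).g i j _) = _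
    rw [VS.mapθ_g φ.unop u hr hr']
    exact ConcreteCategory.congr_hom
      (NatTrans.congr_app ((p j).naturality (Wr.Hom.g φ.unop i r hr).op) k) _

/-- The suspension `V[1](X)`. -/
noncomputable abbrev V1 (X : SP C) : SP (Wr C) := V fun _ : Fin 1 => X

/-- Functoriality of the suspension. -/
noncomputable abbrev V1map {X Y : SP C} (p : X ⟶ Y) : V1 X ⟶ V1 Y := V.map fun _ : Fin 1 => p

/-- The spine of `[m](θ_1, …, θ_m)`: the sieve of all morphisms whose image is contained in
one of the pieces `[1](θ_i)` (or is a vertex). -/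
def spine (θ : Wr C) : Sieve θ where
  arrows η φ := (∃ v, ∀ t, Wr.Hom.f φ t = v) ∨
    ∃ i : Fin θ.len, ∀ t, Wr.Hom.f φ t = i.castSucc ∨ Wr.Hom.f φ t = i.succ
  downward_closed {η ζ φ} h ψ := by
    rcases h with ⟨v, hv⟩ | ⟨i, hi⟩
    · exact Or.inl ⟨v, fun t => hv _⟩
    · exact Or.inr ⟨i, fun t => hi _⟩

/-- The suspension of a sieve on `θ`, a sieve on `[1](θ)`. -/
def suspSieve {θ : C} (S : Sieve θ) : Sieve (⟨1, fun _ => θ⟩ : Wr C) where
  arrows η φ := ∀ (i : Fin η.len) (j : Fin 1) (h : Jump (Wr.Hom.f φ) i j),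
    S.arrows (Wr.Hom.g φ i j h)
  downward_closed {η ζ φ} h ψ := by
    intro i j hij
    obtain ⟨r, hr, hr'⟩ := Jump.split (f := Wr.Hom.f ψ) (g := Wr.Hom.f φ) hij
    have := Wr.comp_g ψ φ hr hr'
    have e : Wr.Hom.g (ψ ≫ φ) i j hij = Wr.Hom.g (ψ ≫ φ) i j (hr.comp hr') := rfl
    rw [e, this]
    exact S.downward_closed (h r j hr') _

/-- The presheaf of sets `[m](θ) ↦ {0,1}^{m+1}`, that is the nerve of the free-standing
isomorphism. -/
noncomputable def isoPsh (C : Type) [SmallCategory C] : (Wr C)ᵒᵖ ⥤ Type where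
  obj θ := Fin (θ.unop.len + 1) → Bool
  map φ := ↾ fun u t => u (Wr.Hom.f φ.unop t)

/-- The completeness map: nerve of the free-standing isomorphism to the point. -/
noncomputable def isoMap (C : Type) [SmallCategory C] : disc (isoPsh C) ⟶ one (Wr C) :=
  discMap { app := fun _ => ↾ fun _ => PUnit.unit, naturality := fun _ _ _ => rfl }

end V

/-- The Segal covers of the objects of `Θ_n`: spines and their suspensions. -/
inductive SegCov : (n : ℕ) → (θ : Th n) → Sieve θ → Prop
  | spine (n : ℕ) (θ : Wr (Th n)) : SegCov (n + 1) θ (FL.spine θ)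
  | susp {n : ℕ} {θ : Th n} {S : Sieve θ} (h : SegCov n θ S) :
      SegCov (n + 1) (⟨1, fun _ => θ⟩ : Wr (Th n)) (suspSieve S)

/-- The completeness maps: nerve of the free-standing isomorphism to the point, and its
suspensions. -/
inductive IsCompl : (n : ℕ) → {X Y : SP (Th n)} → (X ⟶ Y) → Prop
  | base (n : ℕ) : IsCompl (n + 1) (X := disc (isoPsh (Th n))) (Y := one (Wr (Th n)))
      (isoMap (Th n))
  | susp {n : ℕ} {X Y : SP (Th n)} (f : X ⟶ Y) (h : IsCompl n f) :
      IsCompl (n + 1) (X := V1 X) (Y := V1 Y) (V1map f)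

/-- The inclusion `∂c_k ⟶ c_k` of the boundary of the `k`-cell. -/
inductive IsBd : (n k : ℕ) → {X Y : SP (Th n)} → (X ⟶ Y) → Prop
  | zero (n : ℕ) : IsBd n 0 (emptToOne (Th n))
  | susp {n k : ℕ} {X Y : SP (Th n)} (f : X ⟶ Y) (h : IsBd n k f) :
      IsBd (n + 1) (k + 1) (X := V1 X) (Y := V1 Y) (V1map f)

/-- `(∞,n)`-categories: injectively fibrant simplicial presheaves on `Θ_n` satisfying the Segal
conditions and the completeness conditions. -/
structure IsCat (n : ℕ) (C : SP (Th n)) : Prop where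
  inj : InjFib C
  segal : ∀ (θ : Th n) (S : Sieve θ), SegCov n θ S → HoEq (Mp.pre (sieveIncl S) C)
  complete : ∀ (X Y : SP (Th n)) (f : X ⟶ Y), IsCompl n f → HoEq (Mp.pre f C)

end FL
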