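import Pool.Agent.Helper58.FL.Cat

/-!
# Flagged `(∞,n)`-categories and the restricted Yoneda functors

A flagged `(∞,n)`-category is an injectively fibrant simplicial presheaf `D` on
`G_n = Θ_n × [n]^op`, that is a sequence `D_0 ⟶ D_1 ⟶ … ⟶ D_n` of simplicial presheaves on
`Θ_n`, such that `D_i` is an `(∞,i)`-category and the maps `D_i ⟶ D_j` are surjective on
`k`-morphisms with fixed source and target for `k ≤ i ≤ j`.
-/

open CategoryTheory MonoidalCategory Opposite

set_option autoImplicit false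

namespace FL

/-- The category `Θ_n × [n]^op`. -/
abbrev Gn (n : ℕ) : Type := Th n × (Fin (n + 1))ᵒᵖ

noncomputable instance (n : ℕ) : SmallCategory (Gn n) := inferInstance

section

variable {n : ℕ}

/-- The `i`-th level `D_i` of `D_0 ⟶ … ⟶ D_n`. -/
noncomputable def level (D : SP (Gn n)) (i : Fin (n + 1)) : SP (Th n) :=
  (Prod.sectL (Th n) (op i)).op ⋙ D

/-- The natural transformation underlying `levelMap`. -/
noncomputable def secMap {i j : Fin (n + 1)} (h : i ≤ j) :
    Prod.sectL (Th n) (op j) ⟶ Prod.sectL (Th n) (op i) where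
  app θ := (𝟙 θ, (homOfLE h).op)
  naturality θ θ' f := by
    refine Prod.ext ?_ (Subsingleton.elim _ _)
    exact (Category.comp_id _).trans (Category.id_comp _).symm

/-- The maps `D_i ⟶ D_j`. -/
noncomputable def levelMap (D : SP (Gn n)) {i j : Fin (n + 1)} (h : i ≤ j) :
    level D i ⟶ level D j :=
  Functor.whiskerRight (NatTrans.op (secMap h)) D

/-- `Z` is `i`-truncated (lies in `Cat_i ⊂ Cat_n`): the maps `Z(t_i θ) ⟶ Z(θ)` are
equivalences. -/
def Truncated (i : ℕ) (Z : SP (Th n)) : Prop :=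
  ∀ θ : Th n, HoEq (Z.map ((trUnit n i).app θ).op)

/-- Flagged `(∞,n)`-categories. -/
structure Flagged (D : SP (Gn n)) : Prop where
  inj : InjFib D
  cat : ∀ i, IsCat n (level D i)
  trunc : ∀ i : Fin (n + 1), Truncated i.1 (level D i)
  surj : ∀ (i j : Fin (n + 1)) (h : i ≤ j) (k : ℕ), k ≤ i.1 →
    ∀ (X Y : SP (Th n)) (b : X ⟶ Y), IsBd n k b → ∀ (x : X ⟶ level D i) (y : Y ⟶ level D j),
      x ≫ levelMap D h = b ≫ y → ∃ z : Y ⟶ level D i, b ≫ z = x ∧ z ≫ levelMap D h = y

/-- The sequence `C_{≤ 0} ⟶ C_{≤ 1} ⟶ … ⟶ C_{≤ n} = C`, where `C_{≤ i} = C ∘ t_i`. -/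
noncomputable def filt (C : SP (Th n)) : SP (Gn n) := (tower n).op ⋙ C

/-- Functoriality of `filt` on mapping spaces. -/
@[simps]
noncomputable def filtS {C C' : SP (Th n)} {m : SimplexCategory} (φ : MpS C C' m) :
    MpS (filt C) (filt C') m where
  app a k s x := φ.app (op ((tower n).obj a.unop)) k s x
  nat_left f k s x := φ.nat_left ((tower n).map f.unop).op k s x
  nat_right a _ _ g s x := φ.nat_right (op ((tower n).obj a.unop)) g s x

/-- The restricted Yoneda functor to `Θ_n`: `(N D)(θ) = Map(θ_{≤ 0} ⟶ … ⟶ θ_{≤ n}, D)`. -/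
noncomputable def ND (D : SP (Gn n)) : SP (Th n) where
  obj θ := Mp (filt (rep θ.unop)) D
  map f := Mp.pre (Functor.whiskerLeft (tower n).op (repMap f.unop)) D
  map_id θ := by
    ext k φ
    refine MpS.ext ?_
    funext a l s x
    show φ.app a l s _ = φ.app a l s _
    congr 1
    exact Category.comp_id (obj := Th n) _
  map_comp {θ θ' θ''} f g := by
    ext k φ
    refine MpS.ext ?_
    funext a l s x
    show φ.app a l s _ = φ.app a l s _
    congr 1
    exact (Category.assoc (obj := Th n) _ _ _).symm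

/-- The functoriality of `ND` in `D`, as a map of mapping spaces. -/
noncomputable def NDmap (D D' : SP (Gn n)) : Mp D D' ⟶ Mp (ND D) (ND D') where
  app m := ↾ fun φ =>
    { app := fun θ k s ψ => MpS.comp ψ (MpS.res s φ)
      nat_left := fun f k s ψ => rfl
      nat_right := fun θ k l g s ψ => rfl }
  naturality m m' α := by
    ext φ
    rfl

end

end FL
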