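import Pool.Agent.Helper58.FL.Flag

/-!
# Homotopy (co)limits, gaunt colimit diagrams and presheaves on `Cat_n`
-/

open CategoryTheory MonoidalCategory Opposite

set_option autoImplicit false

namespace FL

section Diagrams

/-- A chain `j_0 ⟶ j_1 ⟶ … ⟶ j_k` in `J`, i.e. a functor from `{0 < 1 < … < k}` to `J`:
a `k`-simplex of the nerve of `J`. -/
structure Chain (J : Type) [SmallCategory J] (k : SimplexCategory) : Type where
  obj : Fin (k.len + 1) → J
  map : ∀ i j : Fin (k.len + 1), i ≤ j → (obj i ⟶ obj j)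
  map_id : ∀ i, map i i (le_refl _) = 𝟙 (obj i)
  map_comp : ∀ i j l (h : i ≤ j) (h' : j ≤ l), map i j h ≫ map j l h' = map i l (h.trans h')

variable {J : Type} [SmallCategory J]

/-- Restriction of chains along `α : [l] → [k]`. -/
def Chain.res {k l : SimplexCategory} (σ : Chain J k) (α : l ⟶ k) : Chain J l where
  obj i := σ.obj (α.toOrderHom i)
  map _ _ h := σ.map _ _ (α.toOrderHom.monotone h)
  map_id _ := σ.map_id _
  map_comp _ _ _ _ _ := σ.map_comp _ _ _ _ _

/-- The map `j_0 ⟶ j_{α(0)}` from the first object of `σ` to the first object of its restriction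
along `α : [l] → [k]`. -/
def Chain.zeroTo {k l : SimplexCategory} (σ : Chain J k) (α : l ⟶ k) :
    σ.obj 0 ⟶ (σ.res α).obj 0 :=
  σ.map _ _ (Fin.zero_le _)

/-- The nerve of `J`. -/
def Nv (J : Type) [SmallCategory J] : SSet.{0} where
  obj k := Chain J k.unop
  map α := ↾ fun σ => σ.res α.unop
  map_id _ := rfl
  map_comp _ _ := rfl

/-- A `k`-simplex of the nerve of the under category `j/J`: a chain `j_0 ⟶ … ⟶ j_k` together
with a morphism `j ⟶ j_0`. -/
structure WS (j : J) (k : SimplexCategory) : Type where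
  σ : Chain J k
  u : j ⟶ σ.obj 0

/-- Restriction along `α : [l] → [k]`. -/
@[simps]
def WS.res {j : J} {k l : SimplexCategory} (w : WS j k) (α : l ⟶ k) : WS j l where
  σ := w.σ.res α
  u := w.u ≫ w.σ.zeroTo α

/-- The weight `j ↦ N(j/J)` of homotopy limits. -/
def W (J : Type) [SmallCategory J] : SP J where
  obj j :=
    { obj := fun k => WS j.unop k.unop
      map := fun α => ↾ fun w => w.res α.unop
      map_id := fun k => by
        ext w
        obtain ⟨σ, u⟩ := w
        exact congrArg (WS.mk σ) ((congrArg (u ≫ ·) (σ.map_id 0)).trans (Category.comp_id u))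
      map_comp := fun {k l m} α β => by
        ext w
        obtain ⟨σ, u⟩ := w
        exact congrArg (WS.mk (σ.res (β.unop ≫ α.unop)))
          ((congrArg (u ≫ ·) (σ.map_comp _ _ _ _ _).symm).trans (Category.assoc _ _ _).symm) }
  map f :=
    { app := fun k => ↾ fun w => ⟨w.σ, f.unop ≫ w.u⟩
      naturality := fun k l α => by
        ext w
        exact congrArg (WS.mk (w.σ.res α.unop)) (Category.assoc f.unop w.u (w.σ.zeroTo α.unop)).symm }
  map_id j := by
    ext k w
    exact congrArg (WS.mk w.σ) (Category.id_comp _)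
  map_comp f g := by
    ext k w
    exact congrArg (WS.mk w.σ) (Category.assoc _ _ _)

/-- The (Bousfield–Kan) homotopy limit of a diagram of simplicial sets indexed by `Jᵒᵖ`: the
simplicial set of natural transformations `N(j/J) × Δ[m] ⟶ G(j)`. -/
abbrev Holim (G : SP J) : SSet.{0} := Mp (W J) G

variable {A : Type} [SmallCategory A]

/-- A `k`-simplex of the homotopy colimit of the diagram `p` at `a`: a chain
`j_0 ⟶ … ⟶ j_k` in `J` and a `k`-simplex of `p(j_0)(a)`. -/
structure HS (p : J ⥤ SP A) (a : Aᵒᵖ) (k : SimplexCategoryᵒᵖ) : Type where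
  σ : Chain J k.unop
  x : ((p.obj (σ.obj 0)).obj a).obj k

/-- Restriction along `α : [l] → [k]`. -/
@[simps]
def HS.res {p : J ⥤ SP A} {a : Aᵒᵖ} {k l : SimplexCategoryᵒᵖ} (w : HS p a k) (α : k ⟶ l) :
    HS p a l where
  σ := w.σ.res α.unop
  x := ((p.map (w.σ.zeroTo α.unop)).app a).app l (((p.obj (w.σ.obj 0)).obj a).map α w.x)

/-- The functoriality of `p` in elements. -/
lemma diag_comp (p : J ⥤ SP A) {i j l : J} (f : i ⟶ j) (g : j ⟶ l) {a : Aᵒᵖ}
    {k : SimplexCategoryᵒᵖ} (x : ((p.obj i).obj a).obj k) :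
    ((p.map (f ≫ g)).app a).app k x = ((p.map g).app a).app k (((p.map f).app a).app k x) := by
  rw [p.map_comp]; rfl

lemma diag_id (p : J ⥤ SP A) {i : J} {a : Aᵒᵖ} {k : SimplexCategoryᵒᵖ}
    (x : ((p.obj i).obj a).obj k) : ((p.map (𝟙 i)).app a).app k x = x := by
  rw [p.map_id]; rfl

/-- The (Bousfield–Kan) homotopy colimit of a diagram of simplicial presheaves. -/
def Hoco (p : J ⥤ SP A) : SP A where
  obj a :=
    { obj := fun k => HS p a k
      map := fun α => ↾ fun w => w.res α
      map_id := fun k => by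
        ext w
        obtain ⟨σ, x⟩ := w
        refine congrArg (HS.mk σ) ?_
        refine (congrArg (fun f => ((p.map f).app a).app k _) (σ.map_id 0)).trans ?_
        exact (diag_id p _).trans (sset_id _ x)
      map_comp := fun {k l m} α β => by
        ext w
        obtain ⟨σ, x⟩ := w
        refine congrArg (HS.mk (σ.res (β.unop ≫ α.unop))) ?_
        refine (congrArg _ (sset_comp _ α β x)).trans ?_
        refine (congrArg (fun f => ((p.map f).app a).app m _) (σ.map_comp 0 _ _ (Fin.zero_le _)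
          (α.unop.toOrderHom.monotone (Fin.zero_le (β.unop.toOrderHom 0)))).symm).trans ?_
        refine (diag_comp p _ _ _).trans ?_
        exact congrArg _ (hom_natk (p.map (σ.zeroTo α.unop)) β _) }
  map f :=
    { app := fun k => ↾ fun w => ⟨w.σ, ((p.obj (w.σ.obj 0)).map f).app k w.x⟩
      naturality := fun k l α => by
        ext w
        refine congrArg (HS.mk (w.σ.res α.unop)) ?_
        refine (hom_nat (p.map (w.σ.zeroTo α.unop)) f _).symm.trans ?_
        exact congrArg _ (sp_nat _ f α _) }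
  map_id a := by
    ext k w
    exact congrArg (HS.mk w.σ) (sp_id _ _)
  map_comp f g := by
    ext k w
    exact congrArg (HS.mk w.σ) (sp_comp _ f g _)

/-- The simplex of `Map(p(j), C)` attached by a coherent cocone `Λ : hocolim p ⟶ C` to a simplex
of `N(j/J)`. -/
@[simps]
def coneS {p : J ⥤ SP A} {C : SP A} (Λ : Hoco p ⟶ C) {j : J} {k : SimplexCategory}
    (w : WS j k) : MpS (p.obj j) C k where
  app a l s x := (Λ.app a).app l
    ⟨w.σ.res s, ((p.map (w.u ≫ w.σ.zeroTo s)).app a).app l x⟩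
  nat_left f l s x := by
    refine (congrArg _ (congrArg (HS.mk (w.σ.res s)) (hom_nat _ f x))).trans ?_
    exact hom_nat Λ f ⟨w.σ.res s, _⟩
  nat_right a l m g s x := by
    refine Eq.trans (congrArg _ (congrArg (HS.mk (w.σ.res (g.unop ≫ s))) ?_))
      (hom_natk Λ g ⟨w.σ.res s, _⟩)
    refine Eq.trans ?_ (congrArg (((p.map ((w.σ.res s).zeroTo g.unop)).app a).app m)
      (hom_natk (p.map (w.u ≫ w.σ.zeroTo s)) g x))
    refine Eq.trans ?_ (diag_comp p (w.u ≫ w.σ.zeroTo s) ((w.σ.res s).zeroTo g.unop) _)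
    refine congrArg (fun f => ((p.map f).app a).app m _) ?_
    refine Eq.trans ?_ (Category.assoc _ _ _).symm
    exact congrArg (w.u ≫ ·) (w.σ.map_comp _ _ _ _ _).symm

end Diagrams

section Presheaves

/-- The type of `(∞,n)`-categories. -/
abbrev CatN (n : ℕ) : Type 1 := { C : SP (Th n) // IsCat n C }

/-- A presheaf on the `∞`-category `Cat_n`: a simplicial functor from the opposite of the
simplicial category `CatN n` to simplicial sets. -/
structure PSh (n : ℕ) : Type 1 where
  obj : CatN n → SSet.{0}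
  act : ∀ {C C' : CatN n} {k : SimplexCategoryᵒᵖ}, MpS C.1 C'.1 k.unop → (obj C').obj k →
    (obj C).obj k
  act_nat : ∀ {C C' : CatN n} {k l : SimplexCategoryᵒᵖ} (α : k ⟶ l) (φ : MpS C.1 C'.1 k.unop)
    (x : (obj C').obj k), act (φ.res α.unop) ((obj C').map α x) = (obj C).map α (act φ x)
  act_id : ∀ {C : CatN n} {k : SimplexCategoryᵒᵖ} (x : (obj C).obj k),
    act (MpS.ofHom k.unop (𝟙 C.1)) x = x
  act_comp : ∀ {C C' C'' : CatN n} {k : SimplexCategoryᵒᵖ} (φ : MpS C.1 C'.1 k.unop)
    (ψ : MpS C'.1 C''.1 k.unop) (x : (obj C'').obj k), act (φ.comp ψ) x = act φ (act ψ x)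

variable {n : ℕ}

/-- Objectwise Kan presheaves. -/
def PSh.Kan (F : PSh n) : Prop := ∀ C, SSet.KanComplex (F.obj C)

/-- Morphisms of presheaves on `Cat_n`. -/
structure PSh.Hom (F G : PSh n) : Type 1 where
  app (C : CatN n) : F.obj C ⟶ G.obj C
  act : ∀ {C C' : CatN n} {k : SimplexCategoryᵒᵖ} (φ : MpS C.1 C'.1 k.unop)
    (x : (F.obj C').obj k), (app C).app k (F.act φ x) = G.act φ ((app C').app k x)

/-- `F ≃ G`, for presheaves on `Cat_n` such that `G` is injectively fibrant: there is an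
objectwise equivalence `F ⟶ G`. -/
def PSh.Equiv (F G : PSh n) : Prop := ∃ φ : PSh.Hom F G, ∀ C, HoEq (φ.app C)

/-- An `m`-simplex of the mapping space of `F` and `G`. -/
@[ext]
structure PSh.MapS (F G : PSh n) (m : SimplexCategory) : Type 1 where
  app (C : CatN n) (k : SimplexCategoryᵒᵖ) (s : k.unop ⟶ m) (x : (F.obj C).obj k) :
    (G.obj C).obj k
  nat : ∀ (C : CatN n) {k l : SimplexCategoryᵒᵖ} (g : k ⟶ l) (s : k.unop ⟶ m)
    (x : (F.obj C).obj k), app C l (g.unop ≫ s) ((F.obj C).map g x) =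
      (G.obj C).map g (app C k s x)
  act : ∀ {C C' : CatN n} {k : SimplexCategoryᵒᵖ} (s : k.unop ⟶ m) (φ : MpS C.1 C'.1 k.unop)
    (x : (F.obj C').obj k), app C k s (F.act φ x) = G.act φ (app C' k s x)

/-- The simplicial structure of the mapping spaces of `PSh n`. -/
@[simps]
def PSh.MapS.res {F G : PSh n} {m m' : SimplexCategory} (α : m' ⟶ m) (φ : PSh.MapS F G m) :
    PSh.MapS F G m' where
  app C k s x := φ.app C k (s ≫ α) x
  nat C k l g s x := by
    rw [Category.assoc]
    exact φ.nat C g (s ≫ α) x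
  act s ψ x := φ.act (s ≫ α) ψ x

/-- The mapping spaces of `PSh n`. -/
def PSh.Map (F G : PSh n) : SSet.{1} where
  obj m := PSh.MapS F G m.unop
  map α := ↾ fun φ => φ.res α.unop
  map_id m := by ext φ; simp
  map_comp α β := by ext φ; simp

/-- The restriction of a presheaf on `Cat_n` along a diagram in `Cat_n`. -/
noncomputable def PSh.along (F : PSh n) {J : Type} [SmallCategory J] (p : J ⥤ SP (Th n))
    (hp : ∀ j, IsCat n (p.obj j)) : SP J where
  obj j := F.obj ⟨p.obj j.unop, hp _⟩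
  map {j j'} f :=
    { app := fun k => ↾ fun x =>
        F.act (C := ⟨_, hp j'.unop⟩) (C' := ⟨_, hp j.unop⟩) (MpS.ofHom k.unop (p.map f.unop)) x
      naturality := fun k l α => by
        ext x
        exact F.act_nat (C := ⟨_, hp j'.unop⟩) (C' := ⟨_, hp j.unop⟩) α
          (MpS.ofHom k.unop (p.map f.unop)) x }
  map_id j := by
    ext k x
    refine Eq.trans ?_ (F.act_id (C := ⟨_, hp j.unop⟩) x)
    show F.act (C := ⟨_, hp j.unop⟩) (C' := ⟨_, hp j.unop⟩)
      (MpS.ofHom k.unop (p.map (𝟙 j.unop))) x = _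
    rw [p.map_id]
  map_comp {j j' j''} f g := by
    ext k x
    refine Eq.trans ?_ (F.act_comp (C := ⟨_, hp j''.unop⟩) (C' := ⟨_, hp j'.unop⟩)
      (C'' := ⟨_, hp j.unop⟩) (MpS.ofHom k.unop (p.map g.unop))
      (MpS.ofHom k.unop (p.map f.unop)) x)
    refine congrArg (fun t => F.act (C := ⟨_, hp j''.unop⟩) (C' := ⟨_, hp j.unop⟩) t x) ?_
    show MpS.ofHom k.unop (p.map (g.unop ≫ f.unop)) = _
    rw [p.map_comp]
    rfl

/-- The comparison map `F(C) ⟶ holim_j F(p(j))` of a coherent cocone `hocolim p ⟶ C` in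
`Cat_n`. -/
noncomputable def PSh.compare (F : PSh n) {J : Type} [SmallCategory J] (p : J ⥤ SP (Th n))
    (hp : ∀ j, IsCat n (p.obj j)) {C : SP (Th n)} (hC : IsCat n C) (Λ : Hoco p ⟶ C) :
    F.obj ⟨C, hC⟩ ⟶ Holim (F.along p hp) where
  app k := ↾ fun x =>
    { app := fun j l s w => F.act (C := ⟨_, hp j.unop⟩) (C' := ⟨_, hC⟩) (coneS Λ w)
        ((F.obj ⟨C, hC⟩).map s.op x)
      nat_left := fun {j j'} f l s w => by
        refine Eq.trans ?_ (F.act_comp (C := ⟨_, hp j'.unop⟩) (C' := ⟨_, hp j.unop⟩)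
          (C'' := ⟨_, hC⟩) (MpS.ofHom l.unop (p.map f.unop)) (coneS Λ w) _)
        refine congrArg (fun t => F.act (C := ⟨_, hp j'.unop⟩) (C' := ⟨_, hC⟩) t _) ?_
        refine MpS.ext ?_
        funext a m s' y
        refine congrArg ((Λ.app a).app m) (congrArg (HS.mk (Chain.res (WS.σ w) s')) ?_)
        refine Eq.trans ?_ (diag_comp p f.unop (WS.u w ≫ Chain.zeroTo (WS.σ w) s') y)
        exact congrArg (fun f => ((p.map f).app a).app m y)
          (Category.assoc f.unop (WS.u w) (Chain.zeroTo (WS.σ w) s'))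
      nat_right := fun j l m g s w => by
        refine Eq.trans ?_ (F.act_nat (C := ⟨_, hp j.unop⟩) (C' := ⟨_, hC⟩) g (coneS Λ w) _)
        refine congrArg₂ (F.act (C := ⟨_, hp j.unop⟩) (C' := ⟨_, hC⟩)) ?_ ?_
        · refine MpS.ext ?_
          funext a r s' y
          refine congrArg ((Λ.app a).app r)
            (congrArg (HS.mk (Chain.res (WS.σ w) (s' ≫ g.unop))) ?_)
          refine congrArg (fun f => ((p.map f).app a).app r y) ?_
          refine (Category.assoc (WS.u w) (Chain.zeroTo (WS.σ w) g.unop) _).trans ?_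
          exact congrArg (WS.u w ≫ ·) ((WS.σ w).map_comp _ _ _ _ _)
        · exact sset_comp _ _ _ _ }
  naturality k k' α := by
    ext x
    refine MpS.ext ?_
    funext j l s w
    exact congrArg _ (sset_comp _ α s.op x).symm

/-- Gaunt colimit diagrams: diagrams `p : J ⥤ Cat_n` together with a coherent cocone
`Λ : hocolim p ⟶ C` such that for all `i ≤ n` and all `Z ∈ Cat_n` the map
`Map(C ∘ t_i, Z) ⟶ Map(hocolim_j p(j) ∘ t_i, Z)` is an equivalence, i.e. the induced cocone
`p(j)_{≤ i} ⟶ C_{≤ i}` is a colimit cocone. -/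
structure IsGaunt {J : Type} [SmallCategory J] (p : J ⥤ SP (Th n)) {C : SP (Th n)}
    (Λ : Hoco p ⟶ C) : Prop where
  cat_obj : ∀ j, IsCat n (p.obj j)
  cat_pt : IsCat n C
  colim : ∀ i : ℕ, i ≤ n → ∀ Z : SP (Th n), IsCat n Z →
    HoEq (Mp.pre (Functor.whiskerLeft (tr n i).op Λ) Z)

/-- A presheaf on `Cat_n` satisfies gaunt descent if it sends (the opposites of) gaunt colimit
diagrams to limit diagrams. -/
def PSh.GauntDescent (F : PSh n) : Prop :=
  ∀ (J : Type) [SmallCategory J] (p : J ⥤ SP (Th n)) (C : SP (Th n)) (Λ : Hoco p ⟶ C)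
    (h : IsGaunt p Λ), HoEq (F.compare p h.cat_obj h.cat_pt Λ)

/-- The restricted Yoneda functor: `(Y D)(C) = Map(C_{≤ 0} ⟶ … ⟶ C_{≤ n}, D)`. -/
noncomputable def YD (D : SP (Gn n)) : PSh n where
  obj C := Mp (filt C.1) D
  act φ ψ := MpS.comp (filtS φ) ψ
  act_nat _ _ _ := rfl
  act_id _ := rfl
  act_comp _ _ _ := rfl

/-- The functoriality of `YD` in `D`, as a map of mapping spaces. -/
noncomputable def YDmap (D D' : SP (Gn n)) :
    SSet.uliftFunctor.{1, 0}.obj (Mp D D') ⟶ PSh.Map (YD D) (YD D') where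
  app m := ↾ fun φ =>
    { app := fun C k s ψ => MpS.comp ψ (MpS.res s φ.down)
      nat := fun C k l g s ψ => rfl
      act := fun s φ ψ => rfl }
  naturality m m' α := by
    ext φ
    rfl

end Presheaves

end FL
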