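import Pool.Agent.Helper61.FL10
import Pool.Agent.Helper82.FL.Seg
import Pool.Agent.Helper67.FL.Compl

/-! FL-13: the objects of `Θ_n` are `(∞,n)`-categories. -/

open CategoryTheory Opposite

set_option autoImplicit false

namespace Pool.Agent.Helper58.FLR

open FL

theorem rep_isCat {n : ℕ} (θ : Th n) : IsCat n (rep θ) where
  inj := Helper61FL.disc_injFib _
  segal := fun _ _ hS => Helper61FL.hoEq_disc _ _ (Pool.Agent.Helper82.FL11.segCov_sheaf hS θ)
  complete := fun _ _ f hf => Helper61FL.hoEq_disc f _ (Pool.Agent.Helper67.FLC.isCompl_bij f hf θ)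

end Pool.Agent.Helper58.FLR
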