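import Pool.Agent.Helper58.FL.Pre

/-!
# The conjecture and the listed known theorems
-/

open CategoryTheory MonoidalCategory Opposite

set_option autoImplicit false

namespace FL

section Sieves

variable {A : Type} [SmallCategory A]

/-- The objects of the category of arrows of a sieve. -/
structure SvObj {a : A} (S : Sieve a) : Type where
  b : A
  f : b ⟶ a
  mem : S.arrows f

/-- The category of arrows `b ⟶ a` belonging to a sieve on `a`, a full subcategory of `A/a`. -/
instance {a : A} (S : Sieve a) : SmallCategory (SvObj S) where
  Hom x y := { g : x.b ⟶ y.b // g ≫ y.f = x.f }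
  id x := ⟨𝟙 _, Category.id_comp _⟩
  comp {x y z} g h := ⟨g.1 ≫ h.1, by rw [Category.assoc, h.2, g.2]⟩
  id_comp g := Subtype.ext (Category.id_comp _)
  comp_id g := Subtype.ext (Category.comp_id _)
  assoc g h k := Subtype.ext (Category.assoc _ _ _)

/-- The projection `(b ⟶ a) ↦ b`. -/
@[simps]
def svProj {a : A} (S : Sieve a) : SvObj S ⥤ A where
  obj x := x.b
  map g := g.1

/-- The comparison map `X(a) ⟶ holim X(b)`, the homotopy limit being taken over the arrows
`b ⟶ a` of the sieve `S`. -/
def sieveCompare (X : SP A) {a : A} (S : Sieve a) :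
    X.obj (op a) ⟶ Holim ((svProj S).op ⋙ X) where
  app k := ↾ fun x =>
    { app := fun j _ s _ => (X.map j.unop.f.op).app _ ((X.obj (op a)).map s.op x)
      nat_left := fun {j j'} f l s w => by
        have e : j.unop.f.op ≫ f.unop.1.op = j'.unop.f.op :=
          Quiver.Hom.unop_inj f.unop.2
        refine (congrArg (fun t => (X.map t).app l _) e.symm).trans ?_
        exact sp_comp X _ _ _
      nat_right := fun j l m g s w => by
        refine (congrArg _ (sset_comp _ s.op g x)).trans ?_
        exact sp_nat X _ _ _ }
  naturality k k' α := by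
    ext x
    refine MpS.ext ?_
    funext j l s w
    exact congrArg _ (sset_comp _ α s.op x).symm

/-- The diagram of representable presheaves of a sieve. -/
abbrev svDiag {a : A} (S : Sieve a) : SvObj S ⥤ SP A := svProj S ⋙ yo A

/-- The canonical cocone on the diagram of representable presheaves of a sieve on `a`. -/
def svCone {a : A} (S : Sieve a) : Hoco (svDiag S) ⟶ rep a where
  app b :=
    { app := fun k => ↾ fun (w : HS (svDiag S) b k) => w.x ≫ (w.σ.obj 0).f
      naturality := fun k l α => by
        ext w
        refine (Category.assoc (obj := A) (HS.x w) ((HS.σ w).zeroTo α.unop).1 _).trans ?_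
        exact congrArg (fun t => CategoryStruct.comp (obj := A) (HS.x w) t)
          ((HS.σ w).zeroTo α.unop).2 }
  naturality b b' f := by
    ext k w
    exact Category.assoc (obj := A) _ _ _

end Sieves

section Statement

variable {n : ℕ}

/-- Segal presheaves: presheaves which send (the opposites of) the Segal covers to limit
diagrams. -/
def SegalDescent (X : SP (Th n)) : Prop :=
  ∀ (θ : Th n) (S : Sieve θ), SegCov n θ S → HoEq (sieveCompare X S)

/-- The theorem of Ayala and Francis on flagged `(∞,n)`-categories (listed as known): the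
restricted Yoneda functor `N : fCat_n ⟶ PShv(Θ_n)` is fully faithful, and its essential image
consists of the Segal presheaves. -/
def KnownTheorem (n : ℕ) : Prop :=
  (∀ D D' : SP (Gn n), Flagged D → Flagged D' → HoEq (NDmap D D')) ∧
  ∀ X : SP (Th n), ObjKan X →
    (SegalDescent X ↔ ∃ D : SP (Gn n), Flagged D ∧ ∃ f : X ⟶ ND D, ObjHoEq f)

/-- The fact (listed as known) that Segal covers are gaunt colimit diagrams in `Cat_n`. -/
def KnownGaunt (n : ℕ) : Prop :=
  ∀ (θ : Th n) (S : Sieve θ), SegCov n θ S → IsGaunt (svDiag S) (svCone S)

/-- The conjecture of Ayala and Francis (the affirmative answer to Q1): the restricted Yoneda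
functor `Y : fCat_n ⟶ PShv(Cat_n)` is fully faithful, and its essential image consists of the
presheaves satisfying gaunt descent. -/
def Conjecture (n : ℕ) : Prop :=
  (∀ D D' : SP (Gn n), Flagged D → Flagged D' → HoEq (YDmap D D')) ∧
  ∀ F : PSh n, F.Kan →
    (F.GauntDescent ↔ ∃ D : SP (Gn n), Flagged D ∧ PSh.Equiv F (YD D))

end Statement

end FL
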