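import Pool.Agent.Helper58.FL.Basic

/-!
# Joyal's categories `Θ_n` as iterated wreath products

`Wr C` is the wreath product `Δ ≀ C`: objects are the formal expressions `[m](c_1, …, c_m)`,
morphisms `[m](c) ⟶ [m'](c')` are monotone maps `f : [m] → [m']` together with morphisms
`c_i ⟶ c'_j` for all `f(i-1) < j ≤ f(i)`.  `Th 0` is the point, `Th (n+1) = Wr (Th n)`.
-/

open CategoryTheory MonoidalCategory Opposite

set_option autoImplicit false

namespace FL

/-- Objects `[m](c_1, …, c_m)` of the wreath product `Δ ≀ C` (indices shifted: the letters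
are `obj 0, …, obj (m-1)`). -/
structure Wr (C : Type) : Type where
  len : ℕ
  obj : Fin len → C

section Mid

variable {a b : ℕ}

/-- `Jump f j k`: the gap `k` of `[b]` is contained in the image of the gap `j` of `[a]`
under the monotone map `f : [a] → [b]`, that is `f(j-1) < k ≤ f(j)` with one-based indices. -/
def Jump (f : Fin (a + 1) →o Fin (b + 1)) (j : Fin a) (k : Fin b) : Prop :=
  f j.castSucc ≤ k.castSucc ∧ k.succ ≤ f j.succ

lemma Jump.unique {f : Fin (a + 1) →o Fin (b + 1)} {j j' : Fin a} {k : Fin b}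
    (h : Jump f j k) (h' : Jump f j' k) : j = j' := by
  rcases lt_trichotomy j j' with hl | hl | hl
  · exfalso
    have h1 : f j.succ ≤ f j'.castSucc := f.monotone (by
      rw [Fin.le_def]; simpa using hl)
    have := h.2.trans (h1.trans h'.1)
    rw [Fin.le_def] at this
    simp at this
  · exact hl
  · exfalso
    have h1 : f j'.succ ≤ f j.castSucc := f.monotone (by
      rw [Fin.le_def]; simpa using hl)
    have := h'.2.trans (h1.trans h.1)
    rw [Fin.le_def] at this
    simp at this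

lemma exists_jump (f : Fin (a + 1) →o Fin (b + 1)) (k : Fin b) {p q : Fin (a + 1)}
    (hp : f p ≤ k.castSucc) (hq : k.succ ≤ f q) :
    ∃ j : Fin a, p ≤ j.castSucc ∧ j.succ ≤ q ∧ Jump f j k := by
  have hpq : p < q := by
    by_contra hc
    have := hq.trans ((f.monotone (not_lt.mp hc)).trans hp)
    rw [Fin.le_def] at this
    simp at this
  -- the set of indices `t` with `f t ≤ k` has a greatest element `< q`
  obtain ⟨p, hp'⟩ := p
  obtain ⟨q, hq'⟩ := q
  simp only [Fin.mk_lt_mk] at hpq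
  have key : ∀ d : ℕ, ∀ p (hp' : p < a + 1), p + d = q → 0 < d → f ⟨p, hp'⟩ ≤ k.castSucc →
      ∃ j : Fin a, p ≤ j ∧ j + 1 ≤ q ∧ Jump f j k := by
    intro d
    induction d with
    | zero => intro p hp' _ h0; omega
    | succ d ih =>
      intro p hp' hpd _ hfp
      by_cases h : f ⟨p + 1, by omega⟩ ≤ k.castSucc
      · by_cases hd : d = 0
        · subst hd
          exfalso
          have e : (⟨p + 1, by omega⟩ : Fin (a + 1)) = ⟨q, hq'⟩ := by
            rw [Fin.mk.injEq]; omega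
          rw [e] at h
          have := hq.trans h
          rw [Fin.le_def] at this
          simp at this
        · obtain ⟨j, h1, h2, h3⟩ := ih (p + 1) (by omega) (by omega) (by omega) h
          exact ⟨j, by omega, h2, h3⟩
      · refine ⟨⟨p, by omega⟩, le_refl _, by simp; omega, hfp, ?_⟩
        rw [not_le, Fin.lt_def] at h
        rw [Fin.le_def]
        simpa using h
  obtain ⟨j, h1, h2, h3⟩ := key (q - p) p hp' (by omega) (by omega) hp
  exact ⟨j, by rw [Fin.le_def]; simpa using h1, by rw [Fin.le_def]; simpa using h2, h3⟩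

lemma Jump.comp {c : ℕ} {f : Fin (a + 1) →o Fin (b + 1)} {g : Fin (b + 1) →o Fin (c + 1)}
    {i : Fin a} {j : Fin b} {k : Fin c} (h : Jump f i j) (h' : Jump g j k) :
    Jump (g.comp f) i k :=
  ⟨(g.monotone h.1).trans h'.1, h'.2.trans (g.monotone h.2)⟩

lemma Jump.split {c : ℕ} {f : Fin (a + 1) →o Fin (b + 1)} {g : Fin (b + 1) →o Fin (c + 1)}
    {i : Fin a} {k : Fin c} (h : Jump (g.comp f) i k) :
    ∃ j : Fin b, Jump f i j ∧ Jump g j k := by
  obtain ⟨j, h1, h2, h3⟩ := exists_jump g k (p := f i.castSucc) (q := f i.succ) h.1 h.2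
  exact ⟨j, ⟨h1, h2⟩, h3⟩

lemma jump_id {i j : Fin a} : Jump (OrderHom.id : Fin (a + 1) →o Fin (a + 1)) i j ↔ i = j := by
  constructor
  · rintro ⟨h1, h2⟩
    simp only [OrderHom.id_coe, id_eq, Fin.le_def, Fin.val_castSucc, Fin.val_succ] at h1 h2
    exact Fin.ext (by omega)
  · rintro rfl
    exact ⟨le_refl _, le_refl _⟩

end Mid

namespace Wr

section

variable {C : Type} [SmallCategory C]

/-- Morphisms of the wreath product. -/
@[ext]
structure Hom (X Y : Wr C) : Type where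
  f : Fin (X.len + 1) →o Fin (Y.len + 1)
  g : ∀ (i : Fin X.len) (j : Fin Y.len), Jump f i j → (X.obj i ⟶ Y.obj j)

/-- The identity of `[m](c_1, …, c_m)`. -/
def Hom.id (X : Wr C) : Hom X X where
  f := OrderHom.id
  g i j h := eqToHom (by rw [jump_id.mp h])

/-- Composition in the wreath product: the component `c_i ⟶ c''_k` of the composite is the
composite `c_i ⟶ c'_j ⟶ c''_k` for the unique intermediate gap `j`. -/
noncomputable def Hom.comp {X Y Z : Wr C} (φ : Hom X Y) (ψ : Hom Y Z) : Hom X Z where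
  f := ψ.f.comp φ.f
  g i k h := φ.g i h.split.choose h.split.choose_spec.1 ≫
    ψ.g h.split.choose k h.split.choose_spec.2

lemma Hom.comp_g {X Y Z : Wr C} (φ : Hom X Y) (ψ : Hom Y Z) {i : Fin X.len} {j : Fin Y.len}
    {k : Fin Z.len} (h : Jump φ.f i j) (h' : Jump ψ.f j k) :
    (φ.comp ψ).g i k (h.comp h') = φ.g i j h ≫ ψ.g j k h' := by
  have hj := (h.comp h').split.choose_spec
  have e : (h.comp h').split.choose = j := hj.2.unique h'
  show φ.g i _ hj.1 ≫ ψ.g _ k hj.2 = _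
  have aux : ∀ j' (e : j' = j) (h1 : Jump φ.f i j') (h2 : Jump ψ.f j' k),
      φ.g i j' h1 ≫ ψ.g j' k h2 = φ.g i j h ≫ ψ.g j k h' := by
    rintro j' rfl h1 h2; rfl
  exact aux _ e _ _

lemma Hom.ext' {X Y : Wr C} {φ ψ : Hom X Y} (hf : φ.f = ψ.f)
    (hg : ∀ i j (h : Jump φ.f i j) (h' : Jump ψ.f i j), φ.g i j h = ψ.g i j h') : φ = ψ := by
  obtain ⟨f, g⟩ := φ
  obtain ⟨f', g'⟩ := ψ
  simp only at hf
  subst hf
  congr 1
  funext i j h
  exact hg i j h h

noncomputable instance : SmallCategory (Wr C) where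
  Hom := Hom
  id := Hom.id
  comp := Hom.comp
  id_comp {X Y} φ := by
    refine Hom.ext' (by rfl) fun i j h h' => ?_
    have := Hom.comp_g (Hom.id X) φ (jump_id.mpr rfl) h'
    refine this.trans ?_
    simp [Hom.id]
  comp_id {X Y} φ := by
    refine Hom.ext' (by rfl) fun i j h h' => ?_
    have := Hom.comp_g φ (Hom.id Y) h' (jump_id.mpr rfl)
    refine this.trans ?_
    simp [Hom.id]
  assoc {X Y Z W} φ ψ χ := by
    refine Hom.ext' (by rfl) fun i l h h' => ?_
    obtain ⟨j, hij, hjl⟩ := Jump.split (f := φ.f) (g := χ.f.comp ψ.f) h'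
    obtain ⟨k, hjk, hkl⟩ := hjl.split
    have e1 := Hom.comp_g φ (ψ.comp χ) hij hjl
    have e2 := Hom.comp_g ψ χ hjk hkl
    have e3 := Hom.comp_g (φ.comp ψ) χ (hij.comp hjk) hkl
    have e4 := Hom.comp_g φ ψ hij hjk
    refine e3.trans ?_
    rw [e4]
    refine Eq.trans ?_ e1.symm
    have : (ψ.comp χ).g j l hjl = (ψ.comp χ).g j l (hjk.comp hkl) := rfl
    rw [this, e2, Category.assoc]

@[simp] lemma id_f (X : Wr C) : Hom.f (𝟙 X) = OrderHom.id := rfl
@[simp] lemma comp_f {X Y Z : Wr C} (φ : X ⟶ Y) (ψ : Y ⟶ Z) :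
    Hom.f (φ ≫ ψ) = (Hom.f ψ).comp (Hom.f φ) := rfl

lemma hom_ext' {X Y : Wr C} {φ ψ : X ⟶ Y} (hf : Hom.f φ = Hom.f ψ)
    (hg : ∀ i j (h : Jump (Hom.f φ) i j) (h' : Jump (Hom.f ψ) i j),
      Hom.g φ i j h = Hom.g ψ i j h') : φ = ψ := Hom.ext' hf hg

lemma id_g (X : Wr C) (i : Fin X.len) (h : Jump (Hom.f (𝟙 X)) i i) :
    Hom.g (𝟙 X) i i h = 𝟙 _ := rfl

lemma comp_g {X Y Z : Wr C} (φ : X ⟶ Y) (ψ : Y ⟶ Z) {i : Fin X.len} {j : Fin Y.len}
    {k : Fin Z.len} (h : Jump (Hom.f φ) i j) (h' : Jump (Hom.f ψ) j k) :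
    Hom.g (φ ≫ ψ) i k (h.comp h') = Hom.g φ i j h ≫ Hom.g ψ j k h' := Hom.comp_g φ ψ h h'

/-- A morphism of the wreath product over the identity of `[m]`, given by letterwise
morphisms. -/
def ofComp {m : ℕ} {X Y : Fin m → C} (u : ∀ i, X i ⟶ Y i) : (⟨m, X⟩ : Wr C) ⟶ ⟨m, Y⟩ :=
  ({ f := OrderHom.id
     g := fun (i _ : Fin m) h => u i ≫ eqToHom (congrArg Y (jump_id.mp h)) } :
    Hom (⟨m, X⟩ : Wr C) ⟨m, Y⟩)

@[simp] lemma ofComp_f {m : ℕ} {X Y : Fin m → C} (u : ∀ i, X i ⟶ Y i) :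
    Hom.f (ofComp u) = OrderHom.id := rfl

@[simp] lemma ofComp_g {m : ℕ} {X Y : Fin m → C} (u : ∀ i, X i ⟶ Y i) (i : Fin m)
    (h : Jump (Hom.f (ofComp u)) i i) : Hom.g (ofComp u) i i h = u i := by
  exact Category.comp_id (u i)

end

section Map

variable {C D E : Type} [SmallCategory C] [SmallCategory D] [SmallCategory E]

/-- The functor `Δ ≀ F`. -/
@[simps obj_len obj_obj]
def map (F : C ⥤ D) : Wr C ⥤ Wr D where
  obj X := ⟨X.len, fun i => F.obj (X.obj i)⟩
  map {X Y} φ := ({ f := Hom.f (X := X) (Y := Y) φ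
                    g := fun i j h => F.map (Hom.g (X := X) (Y := Y) φ i j h) } :
    Hom (⟨X.len, fun i => F.obj (X.obj i)⟩ : Wr D) ⟨Y.len, fun i => F.obj (Y.obj i)⟩)
  map_id X := by
    refine hom_ext' rfl fun i j h h' => ?_
    obtain rfl : i = j := jump_id.mp h
    exact F.map_id _
  map_comp {X Y Z} φ ψ := by
    refine hom_ext' rfl fun i k h h' => ?_
    obtain ⟨j, hij, hjk⟩ := Jump.split (f := Hom.f φ) (g := Hom.f ψ) h
    refine Eq.trans ?_ (comp_g (X := ⟨X.len, fun i => F.obj (X.obj i)⟩)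
      (Y := ⟨Y.len, fun i => F.obj (Y.obj i)⟩) (Z := ⟨Z.len, fun i => F.obj (Z.obj i)⟩)
      _ _ hij hjk).symm
    show F.map (Hom.g (φ ≫ ψ) i k _) = _
    rw [comp_g φ ψ hij hjk, F.map_comp]

@[simp] lemma map_map_f (F : C ⥤ D) {X Y : Wr C} (φ : X ⟶ Y) :
    Hom.f (X := (map F).obj X) (Y := (map F).obj Y) ((map F).map φ) =
      Hom.f (X := X) (Y := Y) φ := rfl

@[simp] lemma map_map_g (F : C ⥤ D) {X Y : Wr C} (φ : X ⟶ Y) (i : Fin X.len) (j : Fin Y.len)
    (h : Jump (Hom.f (X := X) (Y := Y) φ) i j) :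
    Hom.g (X := (map F).obj X) (Y := (map F).obj Y) ((map F).map φ) i j h =
      F.map (Hom.g (X := X) (Y := Y) φ i j h) := rfl

/-- Functoriality of `Δ ≀ -` on natural transformations. -/
def mapNat {F G : C ⥤ D} (τ : F ⟶ G) : map F ⟶ map G where
  app X := ofComp (X := fun i => F.obj (X.obj i)) (Y := fun i => G.obj (X.obj i))
    fun i => τ.app (X.obj i)
  naturality X Y φ := by
    refine hom_ext' rfl fun i k h h' => ?_
    have h2 : Jump (Hom.f (X := X) (Y := Y) φ) i k := h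
    have e1 := comp_g (X := (map F).obj X) (Y := (map F).obj Y) (Z := (map G).obj Y)
      ((map F).map φ) (ofComp (X := fun i => F.obj (Y.obj i)) (Y := fun i => G.obj (Y.obj i))
        fun i => τ.app (Y.obj i)) (i := i) (j := k) (k := k) h2 (jump_id.mpr rfl)
    have e2 := comp_g (X := (map F).obj X) (Y := (map G).obj X) (Z := (map G).obj Y)
      (ofComp (X := fun i => F.obj (X.obj i)) (Y := fun i => G.obj (X.obj i))
        fun i => τ.app (X.obj i)) ((map G).map φ) (i := i) (j := i) (k := k)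
        (jump_id.mpr rfl) h2
    have e3 : Hom.g (ofComp (X := fun i => F.obj (Y.obj i)) (Y := fun i => G.obj (Y.obj i))
        fun i => τ.app (Y.obj i)) k k (jump_id.mpr rfl) = τ.app (Y.obj k) := ofComp_g _ _ _
    have e4 : Hom.g (ofComp (X := fun i => F.obj (X.obj i)) (Y := fun i => G.obj (X.obj i))
        fun i => τ.app (X.obj i)) i i (jump_id.mpr rfl) = τ.app (X.obj i) := ofComp_g _ _ _
    refine e1.trans (Eq.trans ?_ e2.symm)
    exact (congrArg (F.map (Hom.g (X := X) (Y := Y) φ i k h2) ≫ ·) e3).trans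
      ((τ.naturality _).trans
        (congrArg (· ≫ G.map (Hom.g (X := X) (Y := Y) φ i k h2)) e4).symm)

@[simp] lemma mapNat_id (F : C ⥤ D) : mapNat (𝟙 F) = 𝟙 (map F) := by
  ext X
  refine hom_ext' rfl fun i k h h' => ?_
  obtain rfl : i = k := jump_id.mp h
  exact ofComp_g (X := fun i => F.obj (X.obj i)) (Y := fun i => F.obj (X.obj i)) _ i h

lemma mapNat_comp {F G H : C ⥤ D} (τ : F ⟶ G) (υ : G ⟶ H) :
    mapNat (τ ≫ υ) = mapNat τ ≫ mapNat υ := by
  ext X
  refine hom_ext' rfl fun i k h h' => ?_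
  obtain rfl : i = k := jump_id.mp h
  have e := comp_g (X := (map F).obj X) (Y := (map G).obj X) (Z := (map H).obj X)
      (ofComp (X := fun i => F.obj (X.obj i)) (Y := fun i => G.obj (X.obj i))
        fun i => τ.app (X.obj i)) (ofComp (X := fun i => G.obj (X.obj i))
        (Y := fun i => H.obj (X.obj i)) fun i => υ.app (X.obj i)) (i := i) (j := i) (k := i)
        (jump_id.mpr rfl) (jump_id.mpr rfl)
  have e3 : Hom.g (ofComp (X := fun i => F.obj (X.obj i)) (Y := fun i => G.obj (X.obj i))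
      fun i => τ.app (X.obj i)) i i (jump_id.mpr rfl) = τ.app (X.obj i) := ofComp_g _ _ _
  have e4 : Hom.g (ofComp (X := fun i => G.obj (X.obj i)) (Y := fun i => H.obj (X.obj i))
      fun i => υ.app (X.obj i)) i i (jump_id.mpr rfl) = υ.app (X.obj i) := ofComp_g _ _ _
  refine Eq.trans ?_ e.symm
  exact (ofComp_g (X := fun i => F.obj (X.obj i)) (Y := fun i => H.obj (X.obj i)) _ i h).trans
    (congrArg₂ (· ≫ ·) e3 e4).symm

/-- The natural transformation `𝟭 ⟶ Δ ≀ F` induced by `τ : 𝟭 ⟶ F`. -/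
def mapIdNat {F : C ⥤ C} (τ : 𝟭 C ⟶ F) : 𝟭 (Wr C) ⟶ map F where
  app X := ofComp (X := X.obj) (Y := fun i => F.obj (X.obj i)) fun i => τ.app (X.obj i)
  naturality X Y φ := by
    refine hom_ext' rfl fun i k h h' => ?_
    have h2 : Jump (Hom.f (X := X) (Y := Y) φ) i k := h
    have e1 := comp_g (X := X) (Y := Y) (Z := (map F).obj Y)
      φ (ofComp (X := fun i => (Y.obj i)) (Y := fun i => F.obj (Y.obj i))
        fun i => τ.app (Y.obj i)) (i := i) (j := k) (k := k) h2 (jump_id.mpr rfl)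
    have e2 := comp_g (X := X) (Y := (map F).obj X) (Z := (map F).obj Y)
      (ofComp (X := fun i => (X.obj i)) (Y := fun i => F.obj (X.obj i))
        fun i => τ.app (X.obj i)) ((map F).map φ) (i := i) (j := i) (k := k)
        (jump_id.mpr rfl) h2
    have e3 : Hom.g (ofComp (X := fun i => (Y.obj i)) (Y := fun i => F.obj (Y.obj i))
        fun i => τ.app (Y.obj i)) k k (jump_id.mpr rfl) = τ.app (Y.obj k) := ofComp_g _ _ _
    have e4 : Hom.g (ofComp (X := fun i => (X.obj i)) (Y := fun i => F.obj (X.obj i))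
        fun i => τ.app (X.obj i)) i i (jump_id.mpr rfl) = τ.app (X.obj i) := ofComp_g _ _ _
    refine e1.trans (Eq.trans ?_ e2.symm)
    exact (congrArg ((Hom.g (X := X) (Y := Y) φ i k h2) ≫ ·) e3).trans
      ((τ.naturality _).trans
        (congrArg (· ≫ F.map (Hom.g (X := X) (Y := Y) φ i k h2)) e4).symm)

end Map

section Point

variable {C : Type} [SmallCategory C]

/-- The object `[0]` of `Δ ≀ C`. -/
def pt : Wr C := ⟨0, Fin.elim0⟩

/-- The morphism to `[0]`. -/
def toPt (X : Wr C) : X ⟶ pt :=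
  ({ f := ⟨fun _ => 0, fun _ _ _ => le_refl _⟩, g := fun _ (j : Fin 0) _ => j.elim0 } :
    Hom X ⟨0, Fin.elim0⟩)

lemma toPt_unique {X : Wr C} (φ ψ : X ⟶ pt) : φ = ψ := by
  refine hom_ext' ?_ fun i (k : Fin 0) h h' => k.elim0
  ext x
  exact congrArg Fin.val (Subsingleton.elim (α := Fin 1) _ _)

end Point

end Wr

/-- Joyal's category `Θ_n`. -/
def Th : ℕ → Type
  | 0 => Discrete PUnit.{1}
  | (n + 1) => Wr (Th n)

noncomputable instance Th.category : ∀ n : ℕ, SmallCategory (Th n)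
  | 0 => inferInstanceAs (SmallCategory (Discrete PUnit.{1}))
  | (n + 1) => @Wr.instSmallCategory (Th n) (Th.category n)

/-- The truncation functor `t_i : Θ_n ⥤ Θ_n`: it collapses all cells of dimension `> i`. -/
noncomputable def tr : (n i : ℕ) → Th n ⥤ Th n
  | 0, _ => 𝟭 _
  | (n + 1), 0 => (Functor.const (Wr (Th n))).obj (Wr.pt : Wr (Th n))
  | (n + 1), (i + 1) => Wr.map (tr n i)

/-- The canonical natural maps `t_j θ ⟶ t_i θ` for `i ≤ j`. -/
noncomputable def trMap : (n i j : ℕ) → i ≤ j → (tr n j ⟶ tr n i)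
  | 0, _, _, _ => 𝟙 (𝟭 (Th 0))
  | (n + 1), 0, j, _ =>
      { app := fun (X : Wr (Th n)) => Wr.toPt ((tr (n + 1) j).obj X)
        naturality := fun _ _ _ => Wr.toPt_unique _ _ }
  | (n + 1), (i + 1), (j + 1), h => Wr.mapNat (trMap n i j (Nat.le_of_succ_le_succ h))
  | (_ + 1), (i + 1), 0, h => absurd h (Nat.not_succ_le_zero i)

lemma trMap_refl : ∀ (n i : ℕ) (h : i ≤ i), trMap n i i h = 𝟙 _
  | 0, _, _ => by simp only [trMap]; rfl
  | (n + 1), 0, _ => by
      ext X
      exact Wr.toPt_unique _ _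
  | (n + 1), (i + 1), h => by
      simp only [trMap]
      rw [trMap_refl n i]
      exact Wr.mapNat_id _

lemma trMap_trans : ∀ (n i j k : ℕ) (h : i ≤ j) (h' : j ≤ k),
    trMap n j k h' ≫ trMap n i j h = trMap n i k (h.trans h')
  | 0, _, _, _, _, _ => by simp only [trMap]; exact Category.comp_id _
  | (n + 1), 0, j, k, h, h' => by
      ext X
      exact Wr.toPt_unique _ _
  | (n + 1), (i + 1), (j + 1), (k + 1), h, h' => by
      simp only [trMap]
      rw [← trMap_trans n i j k (Nat.le_of_succ_le_succ h) (Nat.le_of_succ_le_succ h')]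
      exact (Wr.mapNat_comp _ _).symm
  | (_ + 1), (i + 1), 0, _, h, _ => absurd h (Nat.not_succ_le_zero i)
  | (_ + 1), _, (j + 1), 0, _, h' => absurd h' (Nat.not_succ_le_zero j)

/-- The canonical natural maps `θ ⟶ t_i θ`. -/
noncomputable def trUnit : (n i : ℕ) → (𝟭 (Th n) ⟶ tr n i)
  | 0, _ => 𝟙 (𝟭 (Th 0))
  | (n + 1), 0 =>
      { app := fun (X : Wr (Th n)) => Wr.toPt X
        naturality := fun _ _ _ => Wr.toPt_unique _ _ }
  | (n + 1), (i + 1) => Wr.mapIdNat (trUnit n i)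

/-- The functor `(θ, i) ↦ t_i θ` from `Θ_n × [n]^op` to `Θ_n`. -/
noncomputable def tower (n : ℕ) : Th n × (Fin (n + 1))ᵒᵖ ⥤ Th n where
  obj x := (tr n x.2.unop).obj x.1
  map {x y} u := (tr n x.2.unop).map u.1 ≫ (trMap n y.2.unop x.2.unop (leOfHom u.2.unop)).app y.1
  map_id x := by
    have := NatTrans.congr_app (trMap_refl n x.2.unop (le_refl _)) x.1
    dsimp
    rw [this]
    simp
  map_comp {x y z} u v := by
    have := NatTrans.congr_app (trMap_trans n z.2.unop y.2.unop x.2.unop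
      (leOfHom v.2.unop) (leOfHom u.2.unop)) z.1
    dsimp at this ⊢
    rw [← this]
    simp

end FL
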